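import Mathlib

set_option autoImplicit false

/-!
Evasiveness of sparse monotone graph properties (MP_257582_lc): definitions for the
number-theoretic part.
-/

namespace Pool.Agent.H98R2.Nt

open Finset

/-- `log⁺` -/
noncomputable def lp (y : ℝ) : ℝ := max (Real.log y) 0

/-- trapezoidal weight (in `log t`), supported in `(n/2, 4n/5)` -/
noncomputable def phi (n : ℕ) (t : ℝ) : ℝ :=
  lp ((4 * n / 5 : ℝ) / t) - lp ((2 * n / 3 : ℝ) / t) - lp ((3 * n / 5 : ℝ) / t)
    + lp ((n / 2 : ℝ) / t)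

/-- weight on primes -/
noncomputable def wt (n m : ℕ) : ℝ := by
  classical exact if m.Prime then Real.log m * phi n m else 0

/-- total weight -/
noncomputable def MM (n : ℕ) : ℝ := ∑ m ∈ Icc 1 n, wt n m

/-- weight of a residue class -/
noncomputable def TT (n d a : ℕ) : ℝ := ∑ m ∈ (Icc 1 n).filter (fun m => m ≡ a [MOD d]), wt n m

/-- `f m = m - 1` (with `a = 1`) and `f m = n - m` (with `a = n`) -/
structure Shift (n : ℕ) (f : ℕ → ℕ) (a : ℕ) : Prop where
  dvd : ∀ d m, 1 ≤ m → m ≤ n → (d ∣ f m ↔ m ≡ a [MOD d])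
  le : ∀ m, 1 ≤ m → m ≤ n → f m ≤ n
  ge : ∀ m, n / 2 < m → 5 * m ≤ 4 * n → n ≤ 5 * f m
  inj : ∀ m m', 1 ≤ m → m ≤ n → 1 ≤ m' → m' ≤ n → f m = f m' → m = m'
  res : a = 1 ∨ a = n

open Classical in
/-- primes dividing `N` in the window `(y, z]` -/
noncomputable def pw (N : ℕ) (y z : ℝ) : Finset ℕ :=
  N.primeFactors.filter (fun l => y < (l : ℝ) ∧ (l : ℝ) ≤ z)

open Classical in
/-- weight of the `m ≤ n` with property `p` -/
noncomputable def WP (n : ℕ) (p : ℕ → Prop) : ℝ := ∑ m ∈ (Icc 1 n).filter p, wt n m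

end Pool.Agent.H98R2.Nt
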