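import Mathlib
import Pool.Agent.H98R2.Nt.Defs

set_option autoImplicit false

/-! Stubs of the number-theoretic part. DO NOT IMPORT; copy the statement of your task. -/

namespace Pool.Agent.H98R2.Nt

open Finset

/- ===== N1 ===== (file Nt/N1.lean) the weight -/

theorem phi_nonneg (n : ℕ) (t : ℝ) (ht : 0 < t) : 0 ≤ phi n t := sorry

theorem phi_le (n : ℕ) (t : ℝ) (ht : 0 < t) : phi n t ≤ 1 / 5 := sorry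

theorem phi_supp (n : ℕ) (t : ℝ) (ht : 0 < t) (h : phi n t ≠ 0) :
    (n : ℝ) / 2 < t ∧ t < 4 * n / 5 := sorry

theorem wt_nonneg (n m : ℕ) : 0 ≤ wt n m := sorry

theorem wt_le (n m : ℕ) (hm : m ≤ n) : wt n m ≤ Real.log n := sorry

theorem wt_supp (n m : ℕ) (h : wt n m ≠ 0) : m.Prime ∧ n / 2 < m ∧ 5 * m ≤ 4 * n := sorry

theorem shift_one (n : ℕ) (hn : 20 ≤ n) : Shift n (fun m => m - 1) 1 := sorry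

theorem shift_sub (n : ℕ) (hn : 20 ≤ n) : Shift n (fun m => n - m) n := sorry

/- ===== N2 ===== (file Nt/N2.lean; may import N1 and the PNT `Pool.Agent.H732R2.MT_B3`) -/

theorem MM_bounds : ∃ n₀ : ℕ, ∀ n : ℕ, n₀ ≤ n → (n : ℝ) / 40 ≤ MM n ∧ MM n ≤ (n : ℝ) / 20 := sorry

/- ===== N3 ===== (file Nt/N3.lean; may import N1 and Bombieri-Vinogradov) -/

theorem bv_wt (δ : ℝ) (hδ : 0 < δ) (hδ2 : δ < 1 / 2) : ∃ n₀ : ℕ, ∀ n : ℕ, n₀ ≤ n → ∀ a : ℕ → ℕ,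
    ∑ l ∈ (Icc 1 ⌊(n : ℝ) ^ (1 / 2 - δ)⌋₊).filter (fun l => l.Prime ∧ (a l).Coprime l),
      |TT n l (a l) - MM n / ((l : ℝ) - 1)| ≤ n / (Real.log n) ^ 2 := sorry

/- ===== N4 ===== (file Nt/N4.lean; may import N1 and Brun-Titchmarsh) -/

theorem bt_wt : ∃ C : ℝ, 1 ≤ C ∧ ∃ n₀ : ℕ, ∀ n : ℕ, n₀ ≤ n → ∀ l a : ℕ, l.Prime →
    (l : ℝ) ≤ (n : ℝ) ^ (2 / 3 : ℝ) → TT n l a ≤ C * n / l := sorry

/- ===== N5 ===== (file Nt/N5.lean; may import N1-N4 stubs, Mertens) small primes -/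

theorem small_mass (δ : ℝ) (hδ : 0 < δ) (hδ2 : δ < 1 / 2) (ε : ℝ) (hε : 0 < ε) :
    ∃ n₀ : ℕ, ∀ n : ℕ, n₀ ≤ n → ∀ (f : ℕ → ℕ) (a : ℕ), Shift n f a →
      ∑ m ∈ Icc 1 n, wt n m * ∑ l ∈ pw (f m) 0 ((n : ℝ) ^ (1 / 2 - δ)), Real.log l
        ≤ (1 / 2 - δ + ε) * MM n * Real.log n := sorry

/- ===== N6 ===== (file Nt/N6.lean; may import N1, N4, Mertens) middle primes -/

theorem mid_mass : ∃ C : ℝ, 1 ≤ C ∧ ∀ δ η : ℝ, 0 < δ → δ ≤ 1 / 10 → 0 < η → η ≤ 1 / 10 →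
    ∃ n₀ : ℕ, ∀ n : ℕ, n₀ ≤ n → ∀ (f : ℕ → ℕ) (a : ℕ), Shift n f a →
      ∑ m ∈ Icc 1 n, wt n m * ∑ l ∈ pw (f m) ((n : ℝ) ^ (1 / 2 - δ)) ((n : ℝ) ^ (1 / 2 + η)),
        Real.log l ≤ C * (δ + η) * n * Real.log n := sorry

/- ===== N7 ===== (file Nt/N7.lean; may import N1, N2) prime powers -/

theorem pow_mass (ε : ℝ) (hε : 0 < ε) :
    ∃ n₀ : ℕ, ∀ n : ℕ, n₀ ≤ n → ∀ (f : ℕ → ℕ) (a : ℕ), Shift n f a →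
      (1 - ε) * MM n * Real.log n ≤
        ∑ m ∈ Icc 1 n, wt n m * ∑ l ∈ (f m).primeFactors, Real.log l := sorry

/- ===== N8 ===== (file Nt/N8.lean; imports N1-N7) large primes -/

theorem large_mass (ε : ℝ) (hε : 0 < ε) : ∃ η₀ : ℝ, 0 < η₀ ∧ η₀ ≤ 1 / 10 ∧ ∀ η : ℝ, 0 < η →
    η ≤ η₀ → ∃ n₀ : ℕ, ∀ n : ℕ, n₀ ≤ n → ∀ (f : ℕ → ℕ) (a : ℕ), Shift n f a →
      (1 / 2 - ε) * MM n * Real.log n ≤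
        ∑ m ∈ Icc 1 n, wt n m * ∑ l ∈ pw (f m) ((n : ℝ) ^ (1 / 2 + η)) n, Real.log l := sorry

/- ===== N9 ===== (file Nt/N9.lean; may import N1 and `Pool.Agent.Helper112.PairSieve`) -/

theorem sieve_mass : ∃ C : ℝ, 1 ≤ C ∧ ∀ τ : ℝ, 0 < τ → τ ≤ 1 / 4 →
    ∃ n₀ : ℕ, ∀ n : ℕ, n₀ ≤ n →
      WP n (fun m => ∃ q : ℕ, q.Prime ∧ (n : ℝ) ^ (1 - τ) < q ∧ q ∣ m - 1) ≤ C * τ * n := sorry

/- ===== N10 ===== (file Nt/N10.lean; may import N1) -/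

theorem bad_mass (η : ℝ) (hη : 0 < η) (hη2 : η ≤ 1 / 4) (ε : ℝ) (hε : 0 < ε) :
    ∃ n₀ : ℕ, ∀ n : ℕ, n₀ ≤ n →
      WP n (fun m => ∃ k p : ℕ, p.Prime ∧ n - m = k * p ∧ 1 ≤ k ∧ (n : ℝ) ^ (1 / 2 + η) < p ∧
        (n : ℝ) ^ (η / 2) < (Nat.gcd k (p - 1) : ℝ)) ≤ ε * n := sorry

/- ===== N11 ===== (file Nt/N11.lean; imports N1, N2, N8, N9, N10) -/

theorem good_primes : ∃ η : ℝ, 0 < η ∧ η ≤ 1 / 10 ∧ ∃ n₀ : ℕ, ∀ n : ℕ, n₀ ≤ n →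
    ∃ r p q k : ℕ, r.Prime ∧ p.Prime ∧ q.Prime ∧ 1 ≤ k ∧ n = k * p + r ∧ q ∣ r - 1 ∧
      n / 2 < r ∧ 5 * r ≤ 4 * n ∧ (n : ℝ) ^ (1 / 2 + η) < p ∧ (n : ℝ) ^ (1 / 2 + η) < q ∧
      (Nat.gcd k (p - 1) : ℝ) ≤ (n : ℝ) ^ (η / 2) := sorry

end Pool.Agent.H98R2.Nt
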