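import Mathlib
import Pool.Agent.H98R2.Nt.Defs

set_option autoImplicit false

/-! N1: the weight. -/

namespace Pool.Agent.H98R2.Nt

open Finset

lemma lp_zero : lp 0 = 0 := by unfold lp; simp

lemma lp_eq (n : ℕ) (hn : 1 ≤ n) (t c d : ℝ) (ht : 0 < t) (hc : 0 < c) (hd : d = c * n) :
    lp (d / t) = max (Real.log (n / t) + Real.log c) 0 := by
  have hn0 : (0 : ℝ) < n := by exact_mod_cast hn
  unfold lp
  rw [hd, mul_div_assoc, Real.log_mul hc.ne' (by positivity), add_comm]

lemma phi_eq (n : ℕ) (hn : 1 ≤ n) (t : ℝ) (ht : 0 < t) :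
    phi n t = max (Real.log (n / t) + Real.log (4 / 5)) 0 -
      max (Real.log (n / t) + Real.log (2 / 3)) 0 -
      max (Real.log (n / t) + Real.log (3 / 5)) 0 + max (Real.log (n / t) + Real.log (1 / 2)) 0 := by
  unfold phi
  rw [lp_eq n hn t (4 / 5) _ ht (by norm_num) (by ring), lp_eq n hn t (2 / 3) _ ht (by norm_num)
    (by ring), lp_eq n hn t (3 / 5) _ ht (by norm_num) (by ring), lp_eq n hn t (1 / 2) _ ht
    (by norm_num) (by ring)]

lemma phi_zero (t : ℝ) : phi 0 t = 0 := by
  unfold phi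
  simp [lp_zero]

lemma log_rel : Real.log (4 / 5) - Real.log (2 / 3) = Real.log (3 / 5) - Real.log (1 / 2) := by
  rw [← Real.log_div (by norm_num) (by norm_num), ← Real.log_div (by norm_num) (by norm_num)]
  norm_num

lemma log_ord : Real.log (2 / 3) < Real.log (4 / 5) ∧ Real.log (3 / 5) < Real.log (2 / 3) ∧
    Real.log (1 / 2) < Real.log (3 / 5) ∧ Real.log (4 / 5) - Real.log (2 / 3) ≤ 1 / 5 := by
  refine ⟨Real.log_lt_log (by norm_num) (by norm_num), Real.log_lt_log (by norm_num) (by norm_num),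
    Real.log_lt_log (by norm_num) (by norm_num), ?_⟩
  rw [← Real.log_div (by norm_num) (by norm_num)]
  refine (Real.log_le_sub_one_of_pos (by norm_num)).trans ?_
  norm_num

theorem phi_nonneg (n : ℕ) (t : ℝ) (ht : 0 < t) : 0 ≤ phi n t := by
  rcases Nat.eq_zero_or_pos n with rfl | hn
  · rw [phi_zero]
  · rw [phi_eq n hn t ht]
    obtain ⟨h1, h2, h3, _⟩ := log_ord
    have h4 := log_rel
    rcases max_cases (Real.log (n / t) + Real.log (4 / 5)) 0 with ⟨e1, f1⟩ | ⟨e1, f1⟩ <;>
    rcases max_cases (Real.log (n / t) + Real.log (2 / 3)) 0 with ⟨e2, f2⟩ | ⟨e2, f2⟩ <;>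
    rcases max_cases (Real.log (n / t) + Real.log (3 / 5)) 0 with ⟨e3, f3⟩ | ⟨e3, f3⟩ <;>
    rcases max_cases (Real.log (n / t) + Real.log (1 / 2)) 0 with ⟨e4, f4⟩ | ⟨e4, f4⟩ <;>
    rw [e1, e2, e3, e4] <;> linarith

theorem phi_le (n : ℕ) (t : ℝ) (ht : 0 < t) : phi n t ≤ 1 / 5 := by
  rcases Nat.eq_zero_or_pos n with rfl | hn
  · rw [phi_zero]; norm_num
  · rw [phi_eq n hn t ht]
    obtain ⟨h1, h2, h3, h5⟩ := log_ord
    have h4 := log_rel
    rcases max_cases (Real.log (n / t) + Real.log (4 / 5)) 0 with ⟨e1, f1⟩ | ⟨e1, f1⟩ <;>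
    rcases max_cases (Real.log (n / t) + Real.log (2 / 3)) 0 with ⟨e2, f2⟩ | ⟨e2, f2⟩ <;>
    rcases max_cases (Real.log (n / t) + Real.log (3 / 5)) 0 with ⟨e3, f3⟩ | ⟨e3, f3⟩ <;>
    rcases max_cases (Real.log (n / t) + Real.log (1 / 2)) 0 with ⟨e4, f4⟩ | ⟨e4, f4⟩ <;>
    rw [e1, e2, e3, e4] <;> linarith

theorem phi_supp (n : ℕ) (t : ℝ) (ht : 0 < t) (h : phi n t ≠ 0) :
    (n : ℝ) / 2 < t ∧ t < 4 * n / 5 := by
  rcases Nat.eq_zero_or_pos n with rfl | hn
  · exact absurd (phi_zero t) h
  · rw [phi_eq n hn t ht] at h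
    obtain ⟨h1, h2, h3, h5⟩ := log_ord
    have h4 := log_rel
    have hn0 : (0 : ℝ) < n := by exact_mod_cast hn
    constructor
    · by_contra hle
      push Not at hle
      apply h
      have h6 : 0 ≤ Real.log (n / t) + Real.log (1 / 2) := by
        rw [← Real.log_mul (by positivity) (by norm_num)]
        apply Real.log_nonneg
        rw [div_mul_eq_mul_div, le_div_iff₀ ht]; linarith
      rw [max_eq_left (by linarith), max_eq_left (by linarith), max_eq_left (by linarith),
        max_eq_left (by linarith)]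
      linarith
    · by_contra hle
      push Not at hle
      apply h
      have h6 : Real.log (n / t) + Real.log (4 / 5) ≤ 0 := by
        rw [← Real.log_mul (by positivity) (by norm_num)]
        apply Real.log_nonpos (by positivity)
        rw [div_mul_eq_mul_div, div_le_iff₀ ht]; linarith
      rw [max_eq_right (by linarith), max_eq_right (by linarith), max_eq_right (by linarith),
        max_eq_right (by linarith)]
      ring

theorem wt_nonneg (n m : ℕ) : 0 ≤ wt n m := by
  unfold wt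
  split_ifs with h
  · exact mul_nonneg (Real.log_natCast_nonneg m) (phi_nonneg n m (by exact_mod_cast h.pos))
  · exact le_refl _

theorem wt_le (n m : ℕ) (hm : m ≤ n) : wt n m ≤ Real.log n := by
  unfold wt
  split_ifs with h
  · have h1 := phi_le n m (by exact_mod_cast h.pos)
    have h0 := phi_nonneg n m (by exact_mod_cast h.pos)
    have h2 : Real.log m ≤ Real.log n :=
      Real.log_le_log (by exact_mod_cast h.pos) (by exact_mod_cast hm)
    have h3 := Real.log_natCast_nonneg m
    nlinarith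
  · exact Real.log_natCast_nonneg n

theorem wt_supp (n m : ℕ) (h : wt n m ≠ 0) : m.Prime ∧ n / 2 < m ∧ 5 * m ≤ 4 * n := by
  unfold wt at h
  split_ifs at h with hp
  · have h1 : phi n m ≠ 0 := right_ne_zero_of_mul h
    obtain ⟨h2, h3⟩ := phi_supp n m (by exact_mod_cast hp.pos) h1
    refine ⟨hp, ?_, ?_⟩
    · have : (n : ℝ) < 2 * m := by linarith
      have : n < 2 * m := by exact_mod_cast this
      omega
    · have : (5 : ℝ) * m ≤ 4 * n := by linarith
      exact_mod_cast this
  · exact absurd rfl h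

theorem shift_one (n : ℕ) (hn : 20 ≤ n) : Shift n (fun m => m - 1) 1 where
  dvd := by
    intro d m h1 _
    rw [← Nat.modEq_iff_dvd' h1]
    exact ⟨fun h => h.symm, fun h => h.symm⟩
  le := by intro m _ _; omega
  ge := by intro m _ _; omega
  inj := by intro m m' _ _ _ _ h; omega
  res := Or.inl rfl

theorem shift_sub (n : ℕ) (hn : 20 ≤ n) : Shift n (fun m => n - m) n where
  dvd := by
    intro d m _ h2
    rw [← Nat.modEq_iff_dvd' h2]
  le := by intro m _ _; omega
  ge := by intro m _ _; omega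
  inj := by intro m m' _ _ _ _ h; omega
  res := Or.inr rfl

end Pool.Agent.H98R2.Nt
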