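import Mathlib
import Pool.Agent.H98R2.Nt.Defs
import Pool.Agent.H98R2.Nt.N1

set_option autoImplicit false

/-! Exchange of sums (used by N5 and N6). -/

namespace Pool.Agent.H98R2.Nt

open Finset

theorem exch_sum (n : ℕ) (f : ℕ → ℕ) (a : ℕ) (hS : Shift n f a) (y z : ℝ) :
    ∑ m ∈ Icc 1 n, wt n m * ∑ l ∈ pw (f m) y z, Real.log l ≤
      ∑ l ∈ (Icc 1 ⌊z⌋₊).filter (fun l : ℕ => l.Prime ∧ y < (l : ℝ)), Real.log l * TT n l a := by
  classical
  set W := (Icc 1 ⌊z⌋₊).filter (fun l : ℕ => l.Prime ∧ y < (l : ℝ)) with hW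
  have h1 : ∀ m ∈ Icc 1 n, wt n m * ∑ l ∈ pw (f m) y z, Real.log l ≤
      ∑ l ∈ W, if m ≡ a [MOD l] then Real.log l * wt n m else 0 := by
    intro m hm
    rw [Finset.mem_Icc] at hm
    rw [← Finset.sum_filter, Finset.mul_sum]
    have hsub : pw (f m) y z ⊆ W.filter (fun l => m ≡ a [MOD l]) := by
      intro l hl
      unfold pw at hl
      rw [Finset.mem_filter] at hl
      obtain ⟨hl1, hl2, hl3⟩ := hl
      have hlp := Nat.prime_of_mem_primeFactors hl1
      have hld := Nat.dvd_of_mem_primeFactors hl1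
      rw [Finset.mem_filter, hW, Finset.mem_filter, Finset.mem_Icc]
      refine ⟨⟨⟨hlp.one_lt.le, Nat.le_floor hl3⟩, hlp, hl2⟩, ?_⟩
      exact (hS.dvd l m hm.1 hm.2).1 hld
    calc ∑ l ∈ pw (f m) y z, wt n m * Real.log l
        ≤ ∑ l ∈ W.filter (fun l => m ≡ a [MOD l]), wt n m * Real.log l := by
          refine Finset.sum_le_sum_of_subset_of_nonneg hsub fun l hl _ => ?_
          rw [Finset.mem_filter, hW, Finset.mem_filter, Finset.mem_Icc] at hl
          apply mul_nonneg (wt_nonneg n m)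
          apply Real.log_nonneg
          exact_mod_cast hl.1.1.1
      _ = ∑ l ∈ W.filter (fun l => m ≡ a [MOD l]), Real.log l * wt n m :=
          Finset.sum_congr rfl fun l _ => mul_comm _ _
  calc ∑ m ∈ Icc 1 n, wt n m * ∑ l ∈ pw (f m) y z, Real.log l
      ≤ ∑ m ∈ Icc 1 n, ∑ l ∈ W, (if m ≡ a [MOD l] then Real.log l * wt n m else 0) :=
        Finset.sum_le_sum h1
    _ = ∑ l ∈ W, ∑ m ∈ Icc 1 n, (if m ≡ a [MOD l] then Real.log l * wt n m else 0) :=
        Finset.sum_comm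
    _ = ∑ l ∈ W, Real.log l * TT n l a := by
        refine Finset.sum_congr rfl fun l _ => ?_
        unfold TT
        rw [← Finset.sum_filter, Finset.mul_sum]

end Pool.Agent.H98R2.Nt
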