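import Mathlib
import Pool.Agent.H98R2.Nt.Defs
import Pool.Agent.H98R2.Nt.N1

set_option autoImplicit false

/-! Few `m` for which `gcd(k, p - 1)` is large, where `n - m = k p`. -/

namespace Pool.Agent.H98R2.Nt

open Finset

theorem harm_le (n : ℕ) : ∑ i ∈ Icc 1 n, (1 : ℝ) / i ≤ 1 + Real.log n := by
  have h1 := harmonic_le_one_add_log n
  rw [harmonic_eq_sum_Icc] at h1
  push_cast at h1
  simpa [one_div] using h1

theorem log_cube_le (η ε : ℝ) (hη : 0 < η) (hε : 0 < ε) :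
    ∃ n₀ : ℕ, ∀ n : ℕ, n₀ ≤ n →
      Real.log n * (1 + Real.log n) ^ 2 ≤ ε * (n : ℝ) ^ (η / 2) := by
  have h1 : (fun x : ℝ => 1 + Real.log x) =o[Filter.atTop] (fun x : ℝ => x ^ (η / 6)) := by
    apply Asymptotics.IsLittleO.add
    · apply Asymptotics.isLittleO_const_left.2
      right
      have := tendsto_rpow_atTop (y := η / 6) (by positivity)
      exact Filter.tendsto_abs_atTop_atTop.comp this
    · exact isLittleO_log_rpow_atTop (by positivity)
  have h2 := (h1.pow (n := 3) (by norm_num)).bound hε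
  have h3 := tendsto_natCast_atTop_atTop (R := ℝ) |>.eventually h2
  obtain ⟨N, hN⟩ := Filter.eventually_atTop.1 h3
  refine ⟨max N 1, ?_⟩
  intro n hn
  have hn1 : (1 : ℝ) ≤ n := by
    exact_mod_cast (le_max_right N 1).trans hn
  have hlog : 0 ≤ Real.log n := Real.log_nonneg hn1
  have h4 := hN n ((le_max_left N 1).trans hn)
  rw [Real.norm_of_nonneg (by positivity), Real.norm_of_nonneg (by positivity)] at h4
  have h5 : ((n : ℝ) ^ (η / 6)) ^ 3 = (n : ℝ) ^ (η / 2) := by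
    rw [← Real.rpow_natCast, ← Real.rpow_mul (by positivity)]
    congr 1
    push_cast
    ring
  rw [h5] at h4
  refine le_trans ?_ h4
  nlinarith [sq_nonneg (1 + Real.log n), mul_nonneg hlog (sq_nonneg (1 + Real.log n))]

theorem card_bad (η : ℝ) (n : ℕ) (hn : 1 ≤ n) (S : Finset ℕ)
    (hS : ∀ m ∈ S, m ≤ n ∧ 1 ≤ m ∧ ∃ k p : ℕ, p.Prime ∧ n - m = k * p ∧ 1 ≤ k ∧
      (n : ℝ) ^ (η / 2) < (Nat.gcd k (p - 1) : ℝ)) :
    (S.card : ℝ) ≤ n * (1 + Real.log n) ^ 2 / (n : ℝ) ^ (η / 2) := by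
  classical
  have hn0 : (0 : ℝ) < n := by exact_mod_cast hn
  set D : ℝ := (n : ℝ) ^ (η / 2) with hD
  have hD0 : 0 < D := Real.rpow_pos_of_pos hn0 _
  set A : Finset ℕ := (Icc 1 n).filter (fun d => D < (d : ℝ)) with hA
  set T : Finset (Σ _ : ℕ × ℕ, ℕ) := (A ×ˢ Icc 1 n).sigma (fun x => Icc 1 (n / (x.1 * x.1 * x.2)))
    with hT
  have hsub : S ⊆ T.image (fun x => n - x.1.1 * x.1.2 * (1 + x.1.1 * x.2)) := by
    intro m hm
    obtain ⟨hmn, hm1, k, p, hp, hkp, hk, hgcd⟩ := hS m hm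
    set d := Nat.gcd k (p - 1) with hd
    have hp2 := hp.two_le
    have hd0 : 0 < d := Nat.gcd_pos_of_pos_left _ hk
    obtain ⟨k', hk'⟩ := Nat.gcd_dvd_left k (p - 1)
    obtain ⟨u, hu⟩ := Nat.gcd_dvd_right k (p - 1)
    rw [← hd] at hk' hu
    have hk'0 : 1 ≤ k' := by
      rcases Nat.eq_zero_or_pos k' with h | h
      · rw [h, mul_zero] at hk'
        omega
      · exact h
    have hu0 : 1 ≤ u := by
      rcases Nat.eq_zero_or_pos u with h | h
      · rw [h, mul_zero] at hu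
        omega
      · exact h
    have hpe : p = 1 + d * u := by omega
    have hnm : n - m = d * k' * (1 + d * u) := by
      rw [hkp, hk', hpe]
    have hle : d * d * k' * u ≤ n := by
      have h1 : d * d * k' * u ≤ n - m := by
        rw [hnm]
        nlinarith [Nat.zero_le (d * k')]
      omega
    have hdk : d * d * k' * 1 ≤ n := le_trans (Nat.mul_le_mul_left _ hu0) hle
    have hdn : d ≤ n := by
      calc d = d * 1 * 1 * 1 := by ring
        _ ≤ d * d * k' * u := by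
            apply Nat.mul_le_mul (Nat.mul_le_mul (Nat.mul_le_mul_left _ hd0) hk'0) hu0
        _ ≤ n := hle
    have hk'n : k' ≤ n := by
      calc k' = 1 * 1 * k' * 1 := by ring
        _ ≤ d * d * k' * u := by
            apply Nat.mul_le_mul (Nat.mul_le_mul_right _ (Nat.mul_le_mul hd0 hd0)) hu0
        _ ≤ n := hle
    rw [mem_image]
    refine ⟨⟨(d, k'), u⟩, ?_, ?_⟩
    · rw [hT, mem_sigma, mem_product, hA, mem_filter, mem_Icc, mem_Icc, mem_Icc]
      refine ⟨⟨⟨⟨hd0, hdn⟩, hgcd⟩, hk'0, hk'n⟩, hu0, ?_⟩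
      simp only
      rw [Nat.le_div_iff_mul_le (by positivity)]
      calc u * (d * d * k') = d * d * k' * u := by ring
        _ ≤ n := hle
    · simp only
      rw [← hnm]
      omega
  have h1 : S.card ≤ ∑ x ∈ A ×ˢ Icc 1 n, n / (x.1 * x.1 * x.2) := by
    calc S.card ≤ (T.image (fun x => n - x.1.1 * x.1.2 * (1 + x.1.1 * x.2))).card :=
          card_le_card hsub
      _ ≤ T.card := card_image_le
      _ = ∑ x ∈ A ×ˢ Icc 1 n, n / (x.1 * x.1 * x.2) := by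
          rw [hT, card_sigma]
          apply sum_congr rfl
          intro x _
          rw [Nat.card_Icc]
          exact Nat.add_sub_cancel _ _
  have h2 : (S.card : ℝ) ≤ ∑ x ∈ A ×ˢ Icc 1 n, (n : ℝ) / D * ((1 / (x.1 : ℝ)) * (1 / (x.2 : ℝ))) := by
    calc (S.card : ℝ) ≤ ((∑ x ∈ A ×ˢ Icc 1 n, n / (x.1 * x.1 * x.2) : ℕ) : ℝ) := by
          exact_mod_cast h1
      _ = ∑ x ∈ A ×ˢ Icc 1 n, ((n / (x.1 * x.1 * x.2) : ℕ) : ℝ) := by push_cast; rfl
      _ ≤ _ := by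
          apply sum_le_sum
          intro x hx
          rw [mem_product, hA, mem_filter, mem_Icc, mem_Icc] at hx
          obtain ⟨⟨⟨hx1, -⟩, hxD⟩, hx2, -⟩ := hx
          have hx1' : (0 : ℝ) < x.1 := by exact_mod_cast hx1
          have hx2' : (0 : ℝ) < x.2 := by exact_mod_cast hx2
          calc ((n / (x.1 * x.1 * x.2) : ℕ) : ℝ) ≤ (n : ℝ) / ((x.1 * x.1 * x.2 : ℕ) : ℝ) :=
                Nat.cast_div_le
            _ = (n : ℝ) / x.1 * ((1 / (x.1 : ℝ)) * (1 / (x.2 : ℝ))) := by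
                push_cast
                field_simp
            _ ≤ (n : ℝ) / D * ((1 / (x.1 : ℝ)) * (1 / (x.2 : ℝ))) := by
                apply mul_le_mul_of_nonneg_right _ (by positivity)
                exact div_le_div_of_nonneg_left hn0.le hD0 hxD.le
  have h3 : ∑ x ∈ A ×ˢ Icc 1 n, (n : ℝ) / D * ((1 / (x.1 : ℝ)) * (1 / (x.2 : ℝ))) =
      (n : ℝ) / D * ((∑ d ∈ A, 1 / (d : ℝ)) * ∑ k ∈ Icc 1 n, 1 / (k : ℝ)) := by
    rw [← mul_sum, sum_product, sum_mul_sum]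
  have h4 : ∑ d ∈ A, 1 / (d : ℝ) ≤ 1 + Real.log n := by
    refine le_trans ?_ (harm_le n)
    apply sum_le_sum_of_subset_of_nonneg (filter_subset _ _)
    intro i _ _
    positivity
  have h5 := harm_le n
  have h6 : 0 ≤ ∑ d ∈ A, 1 / (d : ℝ) := sum_nonneg fun i _ => by positivity
  have h7 : 0 ≤ ∑ k ∈ Icc 1 n, 1 / (k : ℝ) := sum_nonneg fun i _ => by positivity
  have hlog : 0 ≤ Real.log n := Real.log_nonneg (by exact_mod_cast hn)
  calc (S.card : ℝ) ≤ (n : ℝ) / D * ((∑ d ∈ A, 1 / (d : ℝ)) * ∑ k ∈ Icc 1 n, 1 / (k : ℝ)) := by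
        rw [← h3]
        exact h2
    _ ≤ (n : ℝ) / D * ((1 + Real.log n) * (1 + Real.log n)) := by
        apply mul_le_mul_of_nonneg_left _ (by positivity)
        exact mul_le_mul h4 h5 h7 (by positivity)
    _ = n * (1 + Real.log n) ^ 2 / D := by ring

open Classical in
theorem bad_mass (η : ℝ) (hη : 0 < η) (hη2 : η ≤ 1 / 4) (ε : ℝ) (hε : 0 < ε) :
    ∃ n₀ : ℕ, ∀ n : ℕ, n₀ ≤ n →
      WP n (fun m => ∃ k p : ℕ, p.Prime ∧ n - m = k * p ∧ 1 ≤ k ∧ (n : ℝ) ^ (1 / 2 + η) < p ∧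
        (n : ℝ) ^ (η / 2) < (Nat.gcd k (p - 1) : ℝ)) ≤ ε * n := by
  obtain ⟨N, hN⟩ := log_cube_le η ε hη hε
  refine ⟨max N 1, ?_⟩
  intro n hn
  have hn1 : 1 ≤ n := (le_max_right N 1).trans hn
  have hn0 : (0 : ℝ) < n := by exact_mod_cast hn1
  have hlog : 0 ≤ Real.log n := Real.log_nonneg (by exact_mod_cast hn1)
  have hN' := hN n ((le_max_left N 1).trans hn)
  have hD0 : 0 < (n : ℝ) ^ (η / 2) := Real.rpow_pos_of_pos hn0 _
  unfold WP
  set S := (Icc 1 n).filter (fun m => ∃ k p : ℕ, p.Prime ∧ n - m = k * p ∧ 1 ≤ k ∧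
    (n : ℝ) ^ (1 / 2 + η) < p ∧ (n : ℝ) ^ (η / 2) < (Nat.gcd k (p - 1) : ℝ)) with hS
  have h1 : ∑ m ∈ S, wt n m ≤ (S.card : ℝ) * Real.log n := by
    rw [← nsmul_eq_mul]
    apply sum_le_card_nsmul
    intro m hm
    rw [hS, mem_filter, mem_Icc] at hm
    exact wt_le n m hm.1.2
  have h2 : (S.card : ℝ) ≤ n * (1 + Real.log n) ^ 2 / (n : ℝ) ^ (η / 2) := by
    apply card_bad η n hn1
    intro m hm
    rw [hS, mem_filter, mem_Icc] at hm
    obtain ⟨⟨hm1, hmn⟩, k, p, hp, hkp, hk, -, hg⟩ := hm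
    exact ⟨hmn, hm1, k, p, hp, hkp, hk, hg⟩
  calc ∑ m ∈ S, wt n m ≤ (S.card : ℝ) * Real.log n := h1
    _ ≤ (n * (1 + Real.log n) ^ 2 / (n : ℝ) ^ (η / 2)) * Real.log n :=
        mul_le_mul_of_nonneg_right h2 hlog
    _ = n * (Real.log n * (1 + Real.log n) ^ 2) / (n : ℝ) ^ (η / 2) := by ring
    _ ≤ n * (ε * (n : ℝ) ^ (η / 2)) / (n : ℝ) ^ (η / 2) := by
        apply div_le_div_of_nonneg_right _ hD0.le
        exact mul_le_mul_of_nonneg_left hN' hn0.le
    _ = ε * n := by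
        field_simp

end Pool.Agent.H98R2.Nt
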