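import Mathlib
import Pool.Agent.H98R2.Nt.Defs
import Pool.Agent.H732R2.MT_B3

set_option autoImplicit false

/-! Task N2: the total weight. -/

namespace Pool.Agent.H98R2.Nt

open Finset Filter Topology

namespace N2

theorem lp_sub (a b : ℝ) (hb : 0 < b) (hab : b ≤ a) :
    0 ≤ lp a - lp b ∧ lp a - lp b ≤ Real.log (a / b) := by
  have h1 : Real.log b ≤ Real.log a := Real.log_le_log hb hab
  rw [Real.log_div (by linarith) hb.ne']
  unfold lp
  constructor
  · have := max_le_max_right 0 h1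
    linarith
  · rcases le_total (Real.log b) 0 with h | h
    · rw [max_eq_right h]
      rcases le_total (Real.log a) 0 with h' | h'
      · rw [max_eq_right h']; linarith
      · rw [max_eq_left h']; linarith
    · rw [max_eq_left h, max_eq_left (h.trans h1)]

theorem abs_phi (n : ℕ) (t : ℝ) (ht : 0 < t) (hn : 1 ≤ n) : |phi n t| ≤ 1 / 5 := by
  have hn0 : (0 : ℝ) < n := by exact_mod_cast hn
  have h1 := lp_sub ((4 * n / 5 : ℝ) / t) ((2 * n / 3 : ℝ) / t) (by positivity)
    (div_le_div_of_nonneg_right (by linarith) ht.le)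
  have h2 := lp_sub ((3 * n / 5 : ℝ) / t) ((n / 2 : ℝ) / t) (by positivity)
    (div_le_div_of_nonneg_right (by linarith) ht.le)
  have e1 : (4 * n / 5 : ℝ) / t / ((2 * n / 3 : ℝ) / t) = 6 / 5 := by field_simp; norm_num
  have e2 : (3 * n / 5 : ℝ) / t / ((n / 2 : ℝ) / t) = 6 / 5 := by field_simp; norm_num
  rw [e1] at h1
  rw [e2] at h2
  have h3 : Real.log (6 / 5) ≤ 1 / 5 := by
    have := Real.log_le_sub_one_of_pos (show (0 : ℝ) < 6 / 5 by norm_num)
    linarith
  unfold phi
  rw [abs_le]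
  constructor <;> linarith [h1.1, h1.2, h2.1, h2.2]

theorem sum_lp (n : ℕ) (X : ℝ) (hX0 : 0 ≤ X) (hX : X ≤ n) :
    ∑ m ∈ Icc 1 n, ArithmeticFunction.vonMangoldt m * lp (X / m) = Pool.Agent.H410R2.psiLog1 X := by
  unfold Pool.Agent.H410R2.psiLog1
  have hfl : ⌊X⌋₊ ≤ n := by
    have := Nat.floor_le_floor hX
    rwa [Nat.floor_natCast] at this
  have hsub : Icc 1 ⌊X⌋₊ ⊆ Icc 1 n := Icc_subset_Icc_right hfl
  rw [← sum_subset hsub]
  · refine sum_congr rfl fun m hm => ?_
    rw [mem_Icc, Nat.le_floor_iff hX0] at hm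
    have hm0 : (0 : ℝ) < m := by
      have : 0 < m := by omega
      exact_mod_cast this
    unfold lp
    rw [max_eq_left]
    apply Real.log_nonneg
    rw [le_div_iff₀ hm0]
    linarith [hm.2]
  · intro m hm hm'
    rw [mem_Icc] at hm
    rw [mem_Icc, Nat.le_floor_iff hX0] at hm'
    have hm0 : (0 : ℝ) < m := by
      have : 0 < m := by omega
      exact_mod_cast this
    have h1 : X < m := by
      by_contra h
      exact hm' ⟨hm.1, not_lt.1 h⟩
    have h2 : lp (X / m) = 0 := by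
      unfold lp
      rw [max_eq_right]
      apply Real.log_nonpos (by positivity)
      rw [div_le_one hm0]
      exact h1.le
    rw [h2, mul_zero]

theorem sum_phi (n : ℕ) : ∑ m ∈ Icc 1 n, ArithmeticFunction.vonMangoldt m * phi n m =
    Pool.Agent.H410R2.psiLog1 (4 * n / 5) - Pool.Agent.H410R2.psiLog1 (2 * n / 3) -
      Pool.Agent.H410R2.psiLog1 (3 * n / 5) + Pool.Agent.H410R2.psiLog1 (n / 2) := by
  have hn : (0 : ℝ) ≤ n := Nat.cast_nonneg n
  rw [← sum_lp n (4 * n / 5) (by positivity) (by linarith),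
    ← sum_lp n (2 * n / 3) (by positivity) (by linarith),
    ← sum_lp n (3 * n / 5) (by positivity) (by linarith),
    ← sum_lp n (n / 2) (by positivity) (by linarith), ← sum_sub_distrib, ← sum_sub_distrib,
    ← sum_add_distrib]
  refine sum_congr rfl fun m _ => ?_
  unfold phi
  ring

theorem diff (n : ℕ) (hn : 1 ≤ n) :
    |∑ m ∈ Icc 1 n, ArithmeticFunction.vonMangoldt m * phi n m - MM n| ≤
      Real.sqrt n * Real.log n := by
  have h1 : ∑ m ∈ Icc 1 n, ArithmeticFunction.vonMangoldt m * phi n m - MM n =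
      ∑ m ∈ (Icc 1 n).filter (fun m => ¬ m.Prime), ArithmeticFunction.vonMangoldt m * phi n m := by
    unfold MM
    rw [← sum_sub_distrib, sum_filter]
    refine sum_congr rfl fun m _ => ?_
    unfold wt
    by_cases hm : m.Prime
    · rw [if_pos hm, if_neg (not_not.2 hm), ArithmeticFunction.vonMangoldt_apply_prime hm]
      ring
    · rw [if_neg hm, if_pos hm]
      ring
  rw [h1]
  have h2 : |∑ m ∈ (Icc 1 n).filter (fun m => ¬ m.Prime), ArithmeticFunction.vonMangoldt m *
      phi n m| ≤ ∑ m ∈ (Icc 1 n).filter (fun m => ¬ m.Prime),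
        ArithmeticFunction.vonMangoldt m * (1 / 5) := by
    refine (abs_sum_le_sum_abs _ _).trans (sum_le_sum fun m hm => ?_)
    rw [mem_filter, mem_Icc] at hm
    have hm0 : (0 : ℝ) < m := by
      have : 0 < m := by omega
      exact_mod_cast this
    rw [abs_mul, abs_of_nonneg ArithmeticFunction.vonMangoldt_nonneg]
    exact mul_le_mul_of_nonneg_left (abs_phi n m hm0 hn) ArithmeticFunction.vonMangoldt_nonneg
  refine h2.trans ?_
  rw [← sum_mul]
  have h3 := Chebyshev.psi_sub_theta_eq_sum_not_prime (n : ℝ)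
  rw [Nat.floor_natCast] at h3
  have h4 : (Icc 1 n : Finset ℕ) = Ioc 0 n := rfl
  rw [h4, ← h3]
  have h5 := Chebyshev.psi_sub_theta_le (x := (n : ℝ)) (by exact_mod_cast hn)
  have h6 : 0 ≤ Real.sqrt n * Real.log n :=
    mul_nonneg (Real.sqrt_nonneg _) (Real.log_nonneg (by exact_mod_cast hn))
  nlinarith

theorem tendsto_scaled (c : ℝ) (hc : 0 < c) :
    Tendsto (fun n : ℕ => Pool.Agent.H410R2.psiLog1 (c * n) / n) atTop (𝓝 c) := by
  have h := Pool.Agent.H732R2.pntLog
  unfold Pool.Agent.H410R2.PNTLog at h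
  have h1 : Tendsto (fun n : ℕ => c * (n : ℝ)) atTop atTop :=
    Tendsto.const_mul_atTop hc tendsto_natCast_atTop_atTop
  have h2 := (h.comp h1).const_mul c
  rw [mul_one] at h2
  refine h2.congr' ?_
  filter_upwards [eventually_ge_atTop 1] with n hn
  have hn0 : (n : ℝ) ≠ 0 := by
    have : 0 < n := by omega
    positivity
  simp only [Function.comp]
  field_simp

theorem MM_tendsto : Tendsto (fun n : ℕ => MM n / n) atTop (𝓝 (1 / 30)) := by
  have h1 := tendsto_scaled (4 / 5) (by norm_num)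
  have h2 := tendsto_scaled (2 / 3) (by norm_num)
  have h3 := tendsto_scaled (3 / 5) (by norm_num)
  have h4 := tendsto_scaled (1 / 2) (by norm_num)
  have h5 := ((h1.sub h2).sub h3).add h4
  have e : (4 / 5 - 2 / 3 - 3 / 5 + 1 / 2 : ℝ) = 1 / 30 := by norm_num
  rw [e] at h5
  have h6 : Tendsto (fun n : ℕ => (∑ m ∈ Icc 1 n, ArithmeticFunction.vonMangoldt m * phi n m) / n)
      atTop (𝓝 (1 / 30)) := by
    refine h5.congr fun n => ?_
    rw [sum_phi]
    have e1 : (4 / 5 : ℝ) * n = 4 * n / 5 := by ring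
    have e2 : (2 / 3 : ℝ) * n = 2 * n / 3 := by ring
    have e3 : (3 / 5 : ℝ) * n = 3 * n / 5 := by ring
    have e4 : (1 / 2 : ℝ) * n = n / 2 := by ring
    rw [e1, e2, e3, e4]
    ring
  have h7 : Tendsto (fun n : ℕ => Real.sqrt n * Real.log n / n) atTop (𝓝 0) := by
    have h8 : Tendsto (fun x : ℝ => Real.log x / x ^ (1 / 2 : ℝ)) atTop (𝓝 0) :=
      (isLittleO_log_rpow_atTop (by norm_num : (0 : ℝ) < 1 / 2)).tendsto_div_nhds_zero
    have h9 := h8.comp tendsto_natCast_atTop_atTop (α := ℕ)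
    refine h9.congr' ?_
    filter_upwards [eventually_ge_atTop 1] with n hn
    have hn0 : (0 : ℝ) < n := by
      have : 0 < n := by omega
      exact_mod_cast this
    simp only [Function.comp]
    rw [← Real.sqrt_eq_rpow]
    have hs : 0 < Real.sqrt n := Real.sqrt_pos.2 hn0
    rw [div_eq_div_iff hs.ne' hn0.ne']
    have h := Real.mul_self_sqrt hn0.le
    calc Real.log n * n = Real.log n * (Real.sqrt n * Real.sqrt n) := by rw [h]
      _ = _ := by ring
  have h10 : Tendsto (fun n : ℕ => (∑ m ∈ Icc 1 n, ArithmeticFunction.vonMangoldt m * phi n m) / n -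
      MM n / n) atTop (𝓝 0) := by
    refine squeeze_zero_norm' ?_ h7
    filter_upwards [eventually_ge_atTop 1] with n hn
    have hn0 : (0 : ℝ) < n := by
      have : 0 < n := by omega
      exact_mod_cast this
    rw [← sub_div, Real.norm_eq_abs, abs_div, abs_of_pos hn0]
    gcongr
    exact diff n hn
  have h11 := h6.sub h10
  rw [sub_zero] at h11
  refine h11.congr fun n => ?_
  ring

end N2

theorem MM_bounds : ∃ n₀ : ℕ, ∀ n : ℕ, n₀ ≤ n → (n : ℝ) / 40 ≤ MM n ∧ MM n ≤ (n : ℝ) / 20 := by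
  have h := N2.MM_tendsto
  have h1 : ∀ᶠ n : ℕ in atTop, 1 / 40 < MM n / n ∧ MM n / n < 1 / 20 := by
    refine h.eventually (p := fun x => 1 / 40 < x ∧ x < 1 / 20) ?_
    exact (eventually_gt_nhds (by norm_num)).and (eventually_lt_nhds (by norm_num))
  obtain ⟨n₀, hn₀⟩ := eventually_atTop.1 h1
  refine ⟨max n₀ 1, fun n hn => ?_⟩
  have hn0 : (0 : ℝ) < n := by
    have : 0 < n := by
      have := le_max_right n₀ 1
      omega
    exact_mod_cast this
  obtain ⟨h2, h3⟩ := hn₀ n ((le_max_left _ _).trans hn)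
  rw [lt_div_iff₀ hn0] at h2
  rw [div_lt_iff₀ hn0] at h3
  constructor <;> linarith

end Pool.Agent.H98R2.Nt
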