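import Mathlib
import Pool.Agent.H98R2.Nt.Defs
import Pool.Agent.H732R2.MT_B2
import Pool.Agent.H398R2.BV6
import Pool.Agent.H379R2.SWMain
import Pool.Agent.H307R2.Sg6

set_option autoImplicit false

/-! Task N3: the Bombieri-Vinogradov theorem for the weight `wt`. -/

namespace Pool.Agent.H98R2.Nt

open Finset

namespace N3aux

open ArithmeticFunction

theorem bvap : Pool.Agent.H410R2.BVAP :=
  Pool.Agent.H732R2.bvAP (Pool.Agent.H398R2.bvTotal (Pool.Agent.H379R2.SW.siegelWalfisz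
    Pool.Agent.H307R2.siegel))

lemma max4 (a1 a2 a3 a4 u c : ℝ) (h12 : a1 = a2 + c) (h34 : a3 = a4 + c) (h23 : a3 ≤ a2)
    (hc : 0 ≤ c) :
    0 ≤ max (a1 - u) 0 - max (a2 - u) 0 - max (a3 - u) 0 + max (a4 - u) 0 ∧
    max (a1 - u) 0 - max (a2 - u) 0 - max (a3 - u) 0 + max (a4 - u) 0 ≤ c := by
  subst h12 h34
  rcases le_total (a2 + c) u with h1 | h1 <;> rcases le_total a2 u with h2 | h2 <;>
  rcases le_total (a4 + c) u with h3 | h3 <;> rcases le_total a4 u with h4 | h4 <;>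
  simp only [max_eq_left, max_eq_right, sub_nonneg, sub_nonpos, h1, h2, h3, h4] <;>
  constructor <;> linarith

lemma phi_bd (n : ℕ) (t : ℝ) (ht : 0 < t) : 0 ≤ phi n t ∧ phi n t ≤ 1 / 5 := by
  rcases Nat.eq_zero_or_pos n with rfl | hn
  · unfold phi lp
    simp
  · have hn' : (0 : ℝ) < n := by exact_mod_cast hn
    have hc : Real.log (6 / 5) ≤ 1 / 5 := by
      have := Real.log_le_sub_one_of_pos (show (0 : ℝ) < 6 / 5 by norm_num)
      linarith
    have hc0 : 0 ≤ Real.log (6 / 5) := Real.log_nonneg (by norm_num)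
    have e1 : Real.log (4 * n / 5) = Real.log (2 * n / 3) + Real.log (6 / 5) := by
      rw [← Real.log_mul (by positivity) (by norm_num)]
      congr 1; ring
    have e2 : Real.log (3 * n / 5) = Real.log (n / 2) + Real.log (6 / 5) := by
      rw [← Real.log_mul (by positivity) (by norm_num)]
      congr 1; ring
    have e3 : Real.log (3 * n / 5) ≤ Real.log (2 * n / 3) := by
      apply Real.log_le_log (by positivity)
      linarith
    have h := max4 _ _ _ _ (Real.log t) _ e1 e2 e3 hc0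
    unfold phi lp
    rw [Real.log_div (by positivity) ht.ne', Real.log_div (by positivity) ht.ne',
      Real.log_div (by positivity) ht.ne', Real.log_div (by positivity) ht.ne']
    exact ⟨h.1, le_trans h.2 hc⟩

/-- class sum with the von Mangoldt function -/
noncomputable def PW (n l a : ℕ) : ℝ :=
  ∑ m ∈ (Icc 1 n).filter (fun m => m ≡ a [MOD l]), vonMangoldt m * phi n m

lemma sum_lp (n l a : ℕ) (X : ℝ) (hX0 : 0 < X) (hX : X ≤ n) :
    ∑ m ∈ (Icc 1 n).filter (fun m => m ≡ a [MOD l]), vonMangoldt m * lp (X / m) =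
      Pool.Agent.H410R2.psiLogAP X l a := by
  unfold Pool.Agent.H410R2.psiLogAP
  have hsub : (Icc 1 ⌊X⌋₊).filter (fun m => m ≡ a [MOD l]) ⊆
      (Icc 1 n).filter (fun m => m ≡ a [MOD l]) := by
    apply filter_subset_filter
    apply Icc_subset_Icc_right
    have := Nat.floor_le_floor hX
    simpa using this
  rw [← sum_subset hsub]
  · apply sum_congr rfl
    intro m hm
    rw [mem_filter, mem_Icc] at hm
    have hm1 : (1 : ℝ) ≤ m := by exact_mod_cast hm.1.1
    have hmX : (m : ℝ) ≤ X := (Nat.le_floor_iff hX0.le).1 hm.1.2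
    congr 1
    unfold lp
    apply max_eq_left
    apply Real.log_nonneg
    rw [le_div_iff₀ (by linarith)]
    linarith
  · intro m hm hm2
    rw [mem_filter, mem_Icc] at hm hm2
    have hm1 : (1 : ℝ) ≤ m := by exact_mod_cast hm.1.1
    have hmX : X < m := by
      by_contra h
      push Not at h
      exact hm2 ⟨⟨hm.1.1, (Nat.le_floor_iff hX0.le).2 h⟩, hm.2⟩
    have : lp (X / m) = 0 := by
      unfold lp
      apply max_eq_right
      apply Real.log_nonpos
      · positivity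
      · rw [div_le_one (by linarith)]; exact hmX.le
    rw [this, mul_zero]

lemma PW_eq (n l a : ℕ) (hn : 1 ≤ n) :
    PW n l a = Pool.Agent.H410R2.psiLogAP (4 * n / 5) l a
      - Pool.Agent.H410R2.psiLogAP (2 * n / 3) l a
      - Pool.Agent.H410R2.psiLogAP (3 * n / 5) l a
      + Pool.Agent.H410R2.psiLogAP (n / 2) l a := by
  have hn' : (1 : ℝ) ≤ n := by exact_mod_cast hn
  rw [← sum_lp n l a (4 * n / 5) (by positivity) (by linarith),
    ← sum_lp n l a (2 * n / 3) (by positivity) (by linarith),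
    ← sum_lp n l a (3 * n / 5) (by positivity) (by linarith),
    ← sum_lp n l a (n / 2) (by positivity) (by linarith),
    ← sum_sub_distrib, ← sum_sub_distrib, ← sum_add_distrib]
  unfold PW
  apply sum_congr rfl
  intro m _
  unfold phi
  ring

lemma psiLog1_eq (X : ℝ) : Pool.Agent.H410R2.psiLog1 X = Pool.Agent.H410R2.psiLogAP X 1 0 := by
  unfold Pool.Agent.H410R2.psiLog1 Pool.Agent.H410R2.psiLogAP
  rw [filter_true_of_mem]
  intro m _
  exact Nat.modEq_one

lemma MM_eq (n : ℕ) : MM n = TT n 1 0 := by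
  unfold MM TT
  rw [filter_true_of_mem]
  intro m _
  exact Nat.modEq_one

/-- `PW - TT` is between `0` and `(ψ n - θ n)/5` -/
lemma PW_sub_TT (n l a : ℕ) :
    0 ≤ PW n l a - TT n l a ∧
      PW n l a - TT n l a ≤ (Chebyshev.psi n - Chebyshev.theta n) / 5 := by
  classical
  have key : PW n l a - TT n l a =
      ∑ m ∈ (Icc 1 n).filter (fun m => m ≡ a [MOD l]),
        (if m.Prime then 0 else vonMangoldt m * phi n m) := by
    unfold PW TT
    rw [← sum_sub_distrib]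
    apply sum_congr rfl
    intro m _
    unfold wt
    split_ifs with h
    · rw [vonMangoldt_apply_prime h]; ring
    · ring
  have hnn : ∀ m ∈ Icc 1 n, 0 ≤ (if m.Prime then 0 else vonMangoldt m * phi n m) := by
    intro m hm
    rw [mem_Icc] at hm
    split_ifs with h
    · exact le_rfl
    · exact mul_nonneg vonMangoldt_nonneg (phi_bd n m (by exact_mod_cast hm.1)).1
  rw [key]
  constructor
  · apply sum_nonneg
    intro m hm
    exact hnn m (mem_of_mem_filter m hm)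
  · calc _ ≤ ∑ m ∈ Icc 1 n, (if m.Prime then 0 else vonMangoldt m * phi n m) := by
          apply sum_le_sum_of_subset_of_nonneg (filter_subset _ _)
          intro m hm _
          exact hnn m hm
      _ ≤ ∑ m ∈ Icc 1 n, (if m.Prime then 0 else vonMangoldt m) / 5 := by
          apply sum_le_sum
          intro m hm
          rw [mem_Icc] at hm
          split_ifs with h
          · simp
          · have := (phi_bd n m (by exact_mod_cast hm.1)).2
            have h2 : 0 ≤ vonMangoldt m := vonMangoldt_nonneg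
            nlinarith
      _ = (Chebyshev.psi n - Chebyshev.theta n) / 5 := by
          rw [← sum_div]
          congr 1
          unfold Chebyshev.psi Chebyshev.theta
          rw [Nat.floor_natCast, sum_filter, ← sum_sub_distrib]
          apply sum_congr
          · ext m; simp [Nat.succ_le_iff]
          · intro m _
            split_ifs with h
            · rw [vonMangoldt_apply_prime h]; ring
            · ring

lemma one_err (n l a : ℕ) (hn : 1 ≤ n) (hl : l.Prime) :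
    |TT n l a - MM n / ((l : ℝ) - 1)| ≤
      |PW n l a - PW n 1 0 / ((l : ℝ) - 1)| + 4 / 5 * (Real.sqrt n * Real.log n) := by
  have hl2 : (2 : ℝ) ≤ l := by exact_mod_cast hl.two_le
  have h1 := PW_sub_TT n l a
  have h2 := PW_sub_TT n 1 0
  have hn' : (1 : ℝ) ≤ n := by exact_mod_cast hn
  have h3 := Chebyshev.abs_psi_sub_theta_le_sqrt_mul_log hn'
  have h4 := le_trans (le_abs_self _) h3
  rw [MM_eq]
  have e : TT n l a - TT n 1 0 / ((l : ℝ) - 1) =
      (PW n l a - PW n 1 0 / ((l : ℝ) - 1)) - (PW n l a - TT n l a)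
        + (PW n 1 0 - TT n 1 0) / ((l : ℝ) - 1) := by ring
  have h5 : (PW n 1 0 - TT n 1 0) / ((l : ℝ) - 1) ≤ PW n 1 0 - TT n 1 0 := by
    apply div_le_self h2.1
    linarith
  have h6 : 0 ≤ (PW n 1 0 - TT n 1 0) / ((l : ℝ) - 1) := div_nonneg h2.1 (by linarith)
  rw [e]
  rw [abs_le]
  have h7 := abs_le.1 (le_refl |PW n l a - PW n 1 0 / ((l : ℝ) - 1)|)
  have h8 : 0 ≤ Real.sqrt n * Real.log n :=
    mul_nonneg (Real.sqrt_nonneg _) (Real.log_nonneg hn')
  constructor <;> nlinarith [h7.1, h7.2]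

lemma four_err (n l a : ℕ) (hn : 1 ≤ n) (hl : l.Prime) :
    |PW n l a - PW n 1 0 / ((l : ℝ) - 1)| ≤
      |Pool.Agent.H410R2.psiLogAP (4 * n / 5) (1 * l) a -
        Pool.Agent.H410R2.psiLog1 (4 * n / 5) / (Nat.totient (1 * l) : ℝ)| +
      |Pool.Agent.H410R2.psiLogAP (2 * n / 3) (1 * l) a -
        Pool.Agent.H410R2.psiLog1 (2 * n / 3) / (Nat.totient (1 * l) : ℝ)| +
      |Pool.Agent.H410R2.psiLogAP (3 * n / 5) (1 * l) a -
        Pool.Agent.H410R2.psiLog1 (3 * n / 5) / (Nat.totient (1 * l) : ℝ)| +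
      |Pool.Agent.H410R2.psiLogAP (n / 2) (1 * l) a -
        Pool.Agent.H410R2.psiLog1 (n / 2) / (Nat.totient (1 * l) : ℝ)| := by
  have ht : ((Nat.totient (1 * l) : ℕ) : ℝ) = (l : ℝ) - 1 := by
    rw [one_mul, Nat.totient_prime hl, Nat.cast_sub hl.one_lt.le, Nat.cast_one]
  rw [PW_eq n l a hn, PW_eq n 1 0 hn, ht, one_mul, psiLog1_eq, psiLog1_eq, psiLog1_eq, psiLog1_eq]
  generalize Pool.Agent.H410R2.psiLogAP (4 * n / 5) l a = A1
  generalize Pool.Agent.H410R2.psiLogAP (2 * n / 3) l a = A2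
  generalize Pool.Agent.H410R2.psiLogAP (3 * n / 5) l a = A3
  generalize Pool.Agent.H410R2.psiLogAP (n / 2) l a = A4
  generalize Pool.Agent.H410R2.psiLogAP (4 * n / 5) 1 0 = B1
  generalize Pool.Agent.H410R2.psiLogAP (2 * n / 3) 1 0 = B2
  generalize Pool.Agent.H410R2.psiLogAP (3 * n / 5) 1 0 = B3
  generalize Pool.Agent.H410R2.psiLogAP (n / 2) 1 0 = B4
  generalize (l : ℝ) - 1 = L
  have e : A1 - A2 - A3 + A4 - (B1 - B2 - B3 + B4) / L =
      (A1 - B1 / L) - (A2 - B2 / L) - (A3 - B3 / L) + (A4 - B4 / L) := by ring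
  rw [e]
  rw [abs_le]
  have h1 := abs_le.1 (le_refl |A1 - B1 / L|)
  have h2 := abs_le.1 (le_refl |A2 - B2 / L|)
  have h3 := abs_le.1 (le_refl |A3 - B3 / L|)
  have h4 := abs_le.1 (le_refl |A4 - B4 / L|)
  constructor <;> linarith [h1.1, h1.2, h2.1, h2.2, h3.1, h3.2, h4.1, h4.2]

/-- one of the four Bombieri-Vinogradov sums -/
lemma one_bv (δ : ℝ) (hδ : 0 < δ) (hδ2 : δ < 1 / 2) (c : ℝ) (hc : 1 / 2 ≤ c) (hc1 : c ≤ 1) :
    ∃ n₀ : ℕ, ∀ n : ℕ, n₀ ≤ n → ∀ a : ℕ → ℕ,
    ∑ l ∈ (Icc 1 ⌊(n : ℝ) ^ (1 / 2 - δ)⌋₊).filter (fun l => l.Prime ∧ (a l).Coprime l),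
      |Pool.Agent.H410R2.psiLogAP (c * n) (1 * l) (a l) -
        Pool.Agent.H410R2.psiLog1 (c * n) / (Nat.totient (1 * l) : ℝ)| ≤
      8 * n / (Real.log n) ^ 3 := by
  obtain ⟨X₀, hX⟩ := bvap 1 le_rfl 1 le_rfl (δ / 2) (by positivity) 3
  have ev1 : ∀ᶠ n : ℕ in Filter.atTop, X₀ ≤ c * (n : ℝ) := by
    have : Filter.Tendsto (fun n : ℕ => c * (n : ℝ)) Filter.atTop Filter.atTop :=
      Filter.Tendsto.const_mul_atTop (by linarith) tendsto_natCast_atTop_atTop
    exact this.eventually_ge_atTop X₀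
  have ev2 : ∀ᶠ n : ℕ in Filter.atTop, (2 : ℝ) ≤ (n : ℝ) ^ (δ / 2) := by
    have : Filter.Tendsto (fun n : ℕ => (n : ℝ) ^ (δ / 2)) Filter.atTop Filter.atTop :=
      (tendsto_rpow_atTop (by positivity)).comp tendsto_natCast_atTop_atTop
    exact this.eventually_ge_atTop 2
  obtain ⟨n₁, h1⟩ := Filter.eventually_atTop.1 (ev1.and ev2)
  refine ⟨max n₁ 4, fun n hn a => ?_⟩
  have hn1 : n₁ ≤ n := le_trans (le_max_left _ _) hn
  have hn4 : 4 ≤ n := le_trans (le_max_right _ _) hn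
  have hn4' : (4 : ℝ) ≤ n := by exact_mod_cast hn4
  have hX0 := (h1 n hn1).1
  have hn2 := (h1 n hn1).2
  have hb := hX (c * n) hX0 a
  have hcn : 0 < c * n := by positivity
  have hcn2 : (n : ℝ) / 2 ≤ c * n := by nlinarith
  -- the range
  have hrange : (n : ℝ) ^ (1 / 2 - δ) ≤ (c * n) ^ (1 / 2 - δ / 2) := by
    have e1 : (n : ℝ) ^ (1 / 2 - δ) * (n : ℝ) ^ (δ / 2) = (n : ℝ) ^ (1 / 2 - δ / 2) := by
      rw [← Real.rpow_add (by linarith)]
      congr 1; ring
    have e2 : (n : ℝ) ^ (1 / 2 - δ / 2) ≤ 2 * (c * n) ^ (1 / 2 - δ / 2) := by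
      calc (n : ℝ) ^ (1 / 2 - δ / 2) ≤ (2 * (c * n)) ^ (1 / 2 - δ / 2) := by
            apply Real.rpow_le_rpow (by linarith) (by linarith) (by linarith)
        _ = (2 : ℝ) ^ (1 / 2 - δ / 2) * (c * n) ^ (1 / 2 - δ / 2) := by
            rw [Real.mul_rpow (by norm_num) hcn.le]
        _ ≤ 2 * (c * n) ^ (1 / 2 - δ / 2) := by
            apply mul_le_mul_of_nonneg_right _ (by positivity)
            calc (2 : ℝ) ^ (1 / 2 - δ / 2) ≤ 2 ^ (1 : ℝ) := by
                  apply Real.rpow_le_rpow_of_exponent_le (by norm_num) (by linarith)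
              _ = 2 := by norm_num
    have e3 : (n : ℝ) ^ (1 / 2 - δ) * 2 ≤ (n : ℝ) ^ (1 / 2 - δ) * (n : ℝ) ^ (δ / 2) := by
      apply mul_le_mul_of_nonneg_left hn2 (by positivity)
    linarith
  have hsub : (Icc 1 ⌊(n : ℝ) ^ (1 / 2 - δ)⌋₊).filter (fun l => l.Prime ∧ (a l).Coprime l) ⊆
      (Icc 1 ⌊(c * n : ℝ) ^ (1 / 2 - δ / 2)⌋₊).filter
        (fun q => Squarefree q ∧ (a q).Coprime (1 * q)) := by
    intro l hl
    rw [mem_filter, mem_Icc] at hl ⊢
    refine ⟨⟨hl.1.1, le_trans hl.1.2 (Nat.floor_le_floor hrange)⟩, hl.2.1.squarefree, ?_⟩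
    rw [one_mul]; exact hl.2.2
  have h2 : ∑ l ∈ (Icc 1 ⌊(n : ℝ) ^ (1 / 2 - δ)⌋₊).filter (fun l => l.Prime ∧ (a l).Coprime l),
      |Pool.Agent.H410R2.psiLogAP (c * n) (1 * l) (a l) -
        Pool.Agent.H410R2.psiLog1 (c * n) / (Nat.totient (1 * l) : ℝ)| ≤
      c * n / (Real.log (c * n)) ^ 3 := by
    refine le_trans ?_ hb
    refine le_trans (sum_le_sum_of_subset_of_nonneg hsub (fun i _ _ => abs_nonneg _)) ?_
    apply le_of_eq
    apply sum_congr rfl
    intro l _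
    simp only [one_pow, one_mul]
  refine le_trans h2 ?_
  have hlog : Real.log n / 2 ≤ Real.log (c * n) := by
    have : Real.log n / 2 = Real.log (Real.sqrt n) := by
      rw [Real.log_sqrt (by linarith)]
    rw [this]
    apply Real.log_le_log (Real.sqrt_pos.2 (by linarith))
    rw [Real.sqrt_le_left (by linarith)]
    nlinarith
  have hlogn : 0 < Real.log n := Real.log_pos (by linarith)
  calc c * n / (Real.log (c * n)) ^ 3 ≤ n / (Real.log n / 2) ^ 3 := by
        apply div_le_div₀ (by linarith) _ (by positivity) _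
        · nlinarith
        · apply pow_le_pow_left₀ (by positivity) hlog
    _ = 8 * n / (Real.log n) ^ 3 := by
        field_simp
        ring

end N3aux

open N3aux in
theorem bv_wt (δ : ℝ) (hδ : 0 < δ) (hδ2 : δ < 1 / 2) : ∃ n₀ : ℕ, ∀ n : ℕ, n₀ ≤ n → ∀ a : ℕ → ℕ,
    ∑ l ∈ (Icc 1 ⌊(n : ℝ) ^ (1 / 2 - δ)⌋₊).filter (fun l => l.Prime ∧ (a l).Coprime l),
      |TT n l (a l) - MM n / ((l : ℝ) - 1)| ≤ n / (Real.log n) ^ 2 := by
  obtain ⟨n₁, h1⟩ := one_bv δ hδ hδ2 (4 / 5) (by norm_num) (by norm_num)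
  obtain ⟨n₂, h2⟩ := one_bv δ hδ hδ2 (2 / 3) (by norm_num) (by norm_num)
  obtain ⟨n₃, h3⟩ := one_bv δ hδ hδ2 (3 / 5) (by norm_num) (by norm_num)
  obtain ⟨n₄, h4⟩ := one_bv δ hδ hδ2 (1 / 2) (by norm_num) (by norm_num)
  have ev1 : ∀ᶠ n : ℕ in Filter.atTop, (64 : ℝ) ≤ Real.log n :=
    (Real.tendsto_log_atTop.comp tendsto_natCast_atTop_atTop).eventually_ge_atTop 64
  have ev2 : ∀ᶠ n : ℕ in Filter.atTop, (Real.log n) ^ (3 : ℝ) ≤ (1 / 2) * (n : ℝ) ^ δ := by
    have h := ((isLittleO_log_rpow_rpow_atTop 3 hδ).bound (show (0 : ℝ) < 1 / 2 by norm_num))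
    have h' := tendsto_natCast_atTop_atTop.eventually h
    filter_upwards [h', Filter.eventually_ge_atTop 1] with n hn hn1
    have hn1' : (1 : ℝ) ≤ n := by exact_mod_cast hn1
    rwa [Real.norm_of_nonneg (Real.rpow_nonneg (Real.log_nonneg hn1') _),
      Real.norm_of_nonneg (Real.rpow_nonneg (by linarith) _)] at hn
  obtain ⟨n₅, h5⟩ := Filter.eventually_atTop.1 (ev1.and ev2)
  refine ⟨max (max n₁ n₂) (max (max n₃ n₄) (max n₅ 4)), fun n hn a => ?_⟩
  simp only [max_le_iff] at hn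
  obtain ⟨⟨m1, m2⟩, ⟨m3, m4⟩, m5, m6⟩ := hn
  have hn4' : (4 : ℝ) ≤ n := by exact_mod_cast m6
  have hn1 : 1 ≤ n := by omega
  have k1 := h1 n m1 a
  have k2 := h2 n m2 a
  have k3 := h3 n m3 a
  have k4 := h4 n m4 a
  have hL := (h5 n m5).1
  have hL2 := (h5 n m5).2
  set S := (Icc 1 ⌊(n : ℝ) ^ (1 / 2 - δ)⌋₊).filter (fun l => l.Prime ∧ (a l).Coprime l) with hS
  have hcard : (S.card : ℝ) ≤ (n : ℝ) ^ (1 / 2 - δ) := by
    calc (S.card : ℝ) ≤ ((Icc 1 ⌊(n : ℝ) ^ (1 / 2 - δ)⌋₊).card : ℝ) := by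
          exact_mod_cast card_filter_le _ _
      _ = (⌊(n : ℝ) ^ (1 / 2 - δ)⌋₊ : ℝ) := by simp
      _ ≤ _ := Nat.floor_le (by positivity)
  have hmain : ∑ l ∈ S, |TT n l (a l) - MM n / ((l : ℝ) - 1)| ≤
      32 * n / (Real.log n) ^ 3 + (n : ℝ) ^ (1 / 2 - δ) * (4 / 5 * (Real.sqrt n * Real.log n)) := by
    calc ∑ l ∈ S, |TT n l (a l) - MM n / ((l : ℝ) - 1)|
        ≤ ∑ l ∈ S, ((|Pool.Agent.H410R2.psiLogAP (4 / 5 * n) (1 * l) (a l) -
        Pool.Agent.H410R2.psiLog1 (4 / 5 * n) / (Nat.totient (1 * l) : ℝ)| +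
      |Pool.Agent.H410R2.psiLogAP (2 / 3 * n) (1 * l) (a l) -
        Pool.Agent.H410R2.psiLog1 (2 / 3 * n) / (Nat.totient (1 * l) : ℝ)| +
      |Pool.Agent.H410R2.psiLogAP (3 / 5 * n) (1 * l) (a l) -
        Pool.Agent.H410R2.psiLog1 (3 / 5 * n) / (Nat.totient (1 * l) : ℝ)| +
      |Pool.Agent.H410R2.psiLogAP (1 / 2 * n) (1 * l) (a l) -
        Pool.Agent.H410R2.psiLog1 (1 / 2 * n) / (Nat.totient (1 * l) : ℝ)|) +
          4 / 5 * (Real.sqrt n * Real.log n)) := by
          apply sum_le_sum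
          intro l hl
          rw [hS, mem_filter] at hl
          refine le_trans (one_err n l (a l) hn1 hl.2.1) ?_
          have h := four_err n l (a l) hn1 hl.2.1
          have e1 : (4 * n / 5 : ℝ) = 4 / 5 * n := by ring
          have e2 : (2 * n / 3 : ℝ) = 2 / 3 * n := by ring
          have e3 : (3 * n / 5 : ℝ) = 3 / 5 * n := by ring
          have e4 : (n / 2 : ℝ) = 1 / 2 * n := by ring
          rw [e1, e2, e3, e4] at h
          linarith
      _ ≤ 32 * n / (Real.log n) ^ 3 +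
          (n : ℝ) ^ (1 / 2 - δ) * (4 / 5 * (Real.sqrt n * Real.log n)) := by
          rw [sum_add_distrib, sum_add_distrib, sum_add_distrib, sum_add_distrib, sum_const,
            nsmul_eq_mul]
          have h8 : 0 ≤ 4 / 5 * (Real.sqrt n * Real.log n) := by
            have := Real.log_nonneg (show (1 : ℝ) ≤ n by linarith)
            positivity
          have h9 := mul_le_mul_of_nonneg_right hcard h8
          have h10 : 32 * (n : ℝ) / (Real.log n) ^ 3 = 8 * n / (Real.log n) ^ 3 +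
            8 * n / (Real.log n) ^ 3 + 8 * n / (Real.log n) ^ 3 + 8 * n / (Real.log n) ^ 3 := by
            ring
          linarith
  refine le_trans hmain ?_
  have hlogpos : 0 < Real.log n := by linarith
  have t1 : 32 * n / (Real.log n) ^ 3 ≤ (1 / 2) * (n / (Real.log n) ^ 2) := by
    have : 32 * n / (Real.log n) ^ 3 = (32 / Real.log n) * (n / (Real.log n) ^ 2) := by
      field_simp
    rw [this]
    apply mul_le_mul_of_nonneg_right _ (by positivity)
    rw [div_le_iff₀ hlogpos]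
    linarith
  have t2 : (n : ℝ) ^ (1 / 2 - δ) * (4 / 5 * (Real.sqrt n * Real.log n)) ≤
      (1 / 2) * (n / (Real.log n) ^ 2) := by
    have hnd : 0 < (n : ℝ) ^ δ := by positivity
    have e1 : (n : ℝ) ^ (1 / 2 - δ) * Real.sqrt n = n / (n : ℝ) ^ δ := by
      rw [Real.sqrt_eq_rpow, ← Real.rpow_add (by linarith), eq_div_iff hnd.ne',
        ← Real.rpow_add (by linarith)]
      have : (1 / 2 - δ + 1 / 2 + δ : ℝ) = 1 := by ring
      rw [this, Real.rpow_one]
    have e2 : (Real.log n) ^ (3 : ℝ) = (Real.log n) ^ 3 := by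
      rw [← Real.rpow_natCast]; norm_num
    rw [e2] at hL2
    have e3 : (n : ℝ) ^ (1 / 2 - δ) * (4 / 5 * (Real.sqrt n * Real.log n)) =
        4 / 5 * (n / (n : ℝ) ^ δ) * Real.log n := by
      rw [← e1]; ring
    rw [e3, show (1 / 2) * (n / (Real.log n) ^ 2) = (n : ℝ) / (2 * (Real.log n) ^ 2) by
      field_simp]
    rw [show 4 / 5 * (n / (n : ℝ) ^ δ) * Real.log n = (4 / 5 * n * Real.log n) / (n : ℝ) ^ δ by
      ring]
    rw [div_le_div_iff₀ hnd (by positivity)]
    have : 4 / 5 * n * Real.log n * (2 * Real.log n ^ 2) = n * (8 / 5 * (Real.log n) ^ 3) := by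
      ring
    rw [this]
    apply mul_le_mul_of_nonneg_left _ (by linarith)
    nlinarith
  linarith

end Pool.Agent.H98R2.Nt
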