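import Mathlib
import Pool.Agent.H98R2.Nt.Defs
import Pool.Agent.H98R2.Nt.N1
import Pool.Agent.H98R2.Nt.N2
import Pool.Agent.H98R2.Nt.N3
import Pool.Agent.H98R2.Nt.Exch
import Pool.Agent.Erdos456.Mertens

set_option autoImplicit false

namespace Pool.Agent.H98R2.Nt

open Finset

/- ===== N5 ===== (file Nt/N5.lean) small primes -/

/-- a residue class not coprime to a small modulus has no weight -/
theorem TT_zero (n l a : ℕ) (hl : l.Prime) (hla : ¬ a.Coprime l)
    (hln : l ≤ n / 2) : TT n l a = 0 := by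
  classical
  unfold TT
  refine Finset.sum_eq_zero fun m hm => ?_
  rw [Finset.mem_filter, Finset.mem_Icc] at hm
  by_contra hw
  obtain ⟨hp, h1, _⟩ := wt_supp n m hw
  have hd : l ∣ a := by
    by_contra hd
    exact hla ((Nat.Prime.coprime_iff_not_dvd hl).2 hd).symm
  have hdm : l ∣ m := (Nat.ModEq.dvd_iff hm.2 (dvd_refl l)).2 hd
  have := (Nat.prime_dvd_prime_iff_eq hl hp).1 hdm
  omega

theorem small_mass (δ : ℝ) (hδ : 0 < δ) (hδ2 : δ < 1 / 2) (ε : ℝ) (hε : 0 < ε) :
    ∃ n₀ : ℕ, ∀ n : ℕ, n₀ ≤ n → ∀ (f : ℕ → ℕ) (a : ℕ), Shift n f a →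
      ∑ m ∈ Icc 1 n, wt n m * ∑ l ∈ pw (f m) 0 ((n : ℝ) ^ (1 / 2 - δ)), Real.log l
        ≤ (1 / 2 - δ + ε) * MM n * Real.log n := by
  classical
  obtain ⟨n1, hMM⟩ := MM_bounds
  obtain ⟨n3, hBV⟩ := bv_wt δ hδ hδ2
  obtain ⟨C, hC⟩ := Pool.Agent.Erdos456.Mert.mertens_log
  obtain ⟨C', hC'0, hC'⟩ := Pool.Agent.Erdos456.Mert.sum_small_bound
  have hCabs : 0 ≤ C := (abs_nonneg _).trans (hC 1 le_rfl)
  -- large n
  have htend : Filter.Tendsto (fun n : ℕ => Real.log (n : ℝ)) Filter.atTop Filter.atTop :=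
    Real.tendsto_log_atTop.comp tendsto_natCast_atTop_atTop
  obtain ⟨n4, hn4⟩ := Filter.eventually_atTop.1
    (htend.eventually_ge_atTop (max 1 ((C + C' + 40) / ε)))
  refine ⟨max (max n1 n3) (max n4 16), fun n hn f a hS => ?_⟩
  have hn1 : n1 ≤ n := by omega
  have hn3 : n3 ≤ n := by omega
  have hn16 : 16 ≤ n := by omega
  have hlog := hn4 n (by omega)
  have hlog1 : 1 ≤ Real.log n := (le_max_left _ _).trans hlog
  have hlog2 : (C + C' + 40) / ε ≤ Real.log n := (le_max_right _ _).trans hlog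
  have hnR : (16 : ℝ) ≤ n := by exact_mod_cast hn16
  have hn0 : (0 : ℝ) < n := by linarith
  obtain ⟨hM1, hM2⟩ := hMM n hn1
  have hMpos : 0 < MM n := lt_of_lt_of_le (by positivity) hM1
  set y : ℝ := (n : ℝ) ^ (1 / 2 - δ) with hy
  have hy1 : 1 ≤ y := Real.one_le_rpow (by linarith) (by linarith)
  set Y : ℕ := ⌊y⌋₊ with hY
  have hY1 : 1 ≤ Y := Nat.floor_pos.mpr hy1
  have hYy : (Y : ℝ) ≤ y := Nat.floor_le (by linarith)
  have hY0 : (0 : ℝ) < Y := by exact_mod_cast hY1
  -- y ≤ n / 2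
  have hysq : y * y ≤ n := by
    rw [hy, ← Real.rpow_add hn0]
    calc (n : ℝ) ^ (1 / 2 - δ + (1 / 2 - δ)) ≤ (n : ℝ) ^ (1 : ℝ) :=
          Real.rpow_le_rpow_of_exponent_le (by linarith) (by linarith)
      _ = n := Real.rpow_one _
  have hyn : 4 * y ≤ n := by
    by_contra hcon
    push Not at hcon
    nlinarith
  have hlogY : Real.log Y ≤ (1 / 2 - δ) * Real.log n := by
    have := Real.log_le_log hY0 hYy
    rwa [hy, Real.log_rpow hn0] at this
  -- exchange
  have hex := exch_sum n f a hS 0 y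
  refine hex.trans ?_
  set W := (Icc 1 Y).filter (fun l : ℕ => l.Prime ∧ (0 : ℝ) < (l : ℝ)) with hW
  have hWe : W = (Icc 1 Y).filter Nat.Prime := by
    rw [hW]
    refine Finset.filter_congr fun l hl => ?_
    rw [Finset.mem_Icc] at hl
    constructor
    · exact fun h => h.1
    · exact fun h => ⟨h, by exact_mod_cast hl.1⟩
  set E : ℕ → ℝ := fun l => if a.Coprime l then |TT n l a - MM n / ((l : ℝ) - 1)| else 0 with hE
  have hpt : ∀ l ∈ W, Real.log l * TT n l a ≤
      MM n * (Real.log l / (l - 1)) + Real.log n * E l := by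
    intro l hl
    rw [hWe, Finset.mem_filter, Finset.mem_Icc] at hl
    obtain ⟨⟨hl1, hlY⟩, hlp⟩ := hl
    have hl2 : (2 : ℝ) ≤ l := by exact_mod_cast hlp.two_le
    have hll : 0 ≤ Real.log l := Real.log_nonneg (by linarith)
    have hlY' : (l : ℝ) ≤ Y := by exact_mod_cast hlY
    have hlln : Real.log l ≤ Real.log n := Real.log_le_log (by linarith) (by linarith)
    by_cases hc : a.Coprime l
    · have hEl : E l = |TT n l a - MM n / ((l : ℝ) - 1)| := if_pos hc
      rw [hEl]
      have h1 : TT n l a ≤ MM n / ((l : ℝ) - 1) + |TT n l a - MM n / ((l : ℝ) - 1)| := by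
        have := le_abs_self (TT n l a - MM n / ((l : ℝ) - 1))
        linarith
      calc Real.log l * TT n l a
          ≤ Real.log l * (MM n / ((l : ℝ) - 1) + |TT n l a - MM n / ((l : ℝ) - 1)|) :=
            mul_le_mul_of_nonneg_left h1 hll
        _ = MM n * (Real.log l / (l - 1)) + Real.log l * |TT n l a - MM n / ((l : ℝ) - 1)| := by
            ring
        _ ≤ MM n * (Real.log l / (l - 1)) + Real.log n * |TT n l a - MM n / ((l : ℝ) - 1)| := by
            gcongr
    · have hEl : E l = 0 := if_neg hc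
      rw [hEl]
      have hz : TT n l a = 0 := by
        apply TT_zero n l a hlp hc
        have h5 : (4 : ℝ) * l ≤ n := by linarith
        have h6 : 4 * l ≤ n := by exact_mod_cast h5
        omega
      rw [hz]
      have : 0 ≤ MM n * (Real.log l / (l - 1)) := by
        apply mul_nonneg hMpos.le
        apply div_nonneg hll
        linarith
      simpa using this
  have hsumE : ∑ l ∈ W, E l ≤ n / (Real.log n) ^ 2 := by
    have h := hBV n hn3 (fun _ => a)
    refine le_trans (le_of_eq ?_) h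
    rw [hWe, hE, ← Finset.sum_filter, Finset.filter_filter]
  have hsumM : ∑ l ∈ W, Real.log l / ((l : ℝ) - 1) ≤ Real.log Y + C + C' := by
    have h1 : ∀ l ∈ W, Real.log l / ((l : ℝ) - 1) =
        Real.log l / l + Real.log l / (l * (l - 1)) := by
      intro l hl
      rw [hWe, Finset.mem_filter, Finset.mem_Icc] at hl
      have hl2 : (2 : ℝ) ≤ l := by exact_mod_cast hl.2.two_le
      have h3 : (l : ℝ) ≠ 0 := by linarith
      have h4 : (l : ℝ) - 1 ≠ 0 := by linarith
      field_simp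
      ring
    rw [Finset.sum_congr rfl h1, Finset.sum_add_distrib]
    have h2 : ∑ l ∈ W, Real.log l / (l : ℝ) ≤ Real.log Y + C := by
      rw [hWe]
      have := (abs_le.1 (hC Y hY1)).2
      linarith
    have h3 : ∑ l ∈ W, Real.log l / ((l : ℝ) * (l - 1)) ≤ C' := by
      rw [hWe]
      exact hC' Y
    linarith
  calc ∑ l ∈ W, Real.log l * TT n l a
      ≤ ∑ l ∈ W, (MM n * (Real.log l / (l - 1)) + Real.log n * E l) := Finset.sum_le_sum hpt
    _ = MM n * ∑ l ∈ W, Real.log l / ((l : ℝ) - 1) + Real.log n * ∑ l ∈ W, E l := by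
        rw [Finset.sum_add_distrib, Finset.mul_sum, Finset.mul_sum]
    _ ≤ MM n * ((1 / 2 - δ) * Real.log n + C + C') +
          Real.log n * (n / (Real.log n) ^ 2) := by
        have h1 : ∑ l ∈ W, Real.log l / ((l : ℝ) - 1) ≤ (1 / 2 - δ) * Real.log n + C + C' := by
          linarith
        have := mul_le_mul_of_nonneg_left h1 hMpos.le
        have := mul_le_mul_of_nonneg_left hsumE (by linarith : 0 ≤ Real.log n)
        linarith
    _ ≤ (1 / 2 - δ + ε) * MM n * Real.log n := by
        have h1 : Real.log n * (n / (Real.log n) ^ 2) = n / Real.log n := by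
          field_simp
        have h2 : (n : ℝ) / Real.log n ≤ 40 * MM n := by
          rw [div_le_iff₀ (by linarith)]
          nlinarith
        have h3 : C + C' + 40 ≤ ε * Real.log n := by
          rw [div_le_iff₀ hε] at hlog2
          linarith
        rw [h1]
        have h4 : MM n * (C + C' + 40) ≤ MM n * (ε * Real.log n) :=
          mul_le_mul_of_nonneg_left h3 hMpos.le
        nlinarith

end Pool.Agent.H98R2.Nt
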