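import Mathlib
import Pool.Agent.H98R2.Nt.Defs
import Pool.Agent.H98R2.Nt.N1
import Pool.Agent.Helper923.PPS.BT

set_option autoImplicit false

namespace Pool.Agent.H98R2.Nt

open Finset

/- ===== N4 ===== (file Nt/N4.lean) -/

theorem bt_wt : ∃ C : ℝ, 1 ≤ C ∧ ∃ n₀ : ℕ, ∀ n : ℕ, n₀ ≤ n → ∀ l a : ℕ, l.Prime →
    (l : ℝ) ≤ (n : ℝ) ^ (2 / 3 : ℝ) → TT n l a ≤ C * n / l := by
  classical
  obtain ⟨C, hC1, hC⟩ := Pool.Agent.Helper923.PPS.brun_titchmarsh
  refine ⟨6 * C, by linarith, 2, fun n hn l a hl hln => ?_⟩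
  have hnR : (2 : ℝ) ≤ n := by exact_mod_cast hn
  have hn0 : (0 : ℝ) < n := by linarith
  have hn1 : (1 : ℝ) ≤ n := by linarith
  have hl0 : (0 : ℝ) < l := by exact_mod_cast hl.pos
  have hlogn : 0 < Real.log n := Real.log_pos (by linarith)
  have hlen : (l : ℝ) ≤ n := by
    refine hln.trans ?_
    calc (n : ℝ) ^ (2 / 3 : ℝ) ≤ (n : ℝ) ^ (1 : ℝ) :=
          Real.rpow_le_rpow_of_exponent_le hn1 (by norm_num)
      _ = n := Real.rpow_one _
  have hlenN : l ≤ n := by exact_mod_cast hlen
  set N : ℕ := n / l + 1 with hN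
  have hdiv1 : 1 ≤ n / l := (Nat.one_le_div_iff hl.pos).2 hlenN
  have hN2 : 2 ≤ N := by omega
  set S := (Icc 1 n).filter (fun m => m ≡ a [MOD l]) with hS
  set P := S.filter (fun m => m.Prime) with hP
  have h1 : TT n l a ≤ (P.card : ℝ) * Real.log n := by
    have e1 : TT n l a = ∑ m ∈ P, wt n m := by
      unfold TT
      rw [hP]
      refine (Finset.sum_filter_of_ne ?_).symm
      intro m _ hm
      exact (wt_supp n m hm).1
    rw [e1]
    calc ∑ m ∈ P, wt n m ≤ ∑ m ∈ P, Real.log n := by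
          refine Finset.sum_le_sum fun m hm => ?_
          apply wt_le
          rw [hP, Finset.mem_filter, hS, Finset.mem_filter, Finset.mem_Icc] at hm
          exact hm.1.1.2
      _ = (P.card : ℝ) * Real.log n := by rw [Finset.sum_const, nsmul_eq_mul]
  have h2 : P.card ≤ ((Finset.range N).filter (fun k => (a % l + k * l).Prime)).card := by
    have hsub : P ⊆ ((Finset.range N).filter (fun k => (a % l + k * l).Prime)).image
        (fun k => a % l + k * l) := by
      intro m hm
      rw [hP, Finset.mem_filter, hS, Finset.mem_filter, Finset.mem_Icc] at hm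
      obtain ⟨⟨⟨hm1, hmn⟩, hma⟩, hmp⟩ := hm
      have hmod : m % l = a % l := hma
      have hm' : a % l + m / l * l = m := by
        rw [← hmod, mul_comm]
        exact Nat.mod_add_div m l
      rw [Finset.mem_image]
      refine ⟨m / l, ?_, hm'⟩
      rw [Finset.mem_filter, Finset.mem_range]
      refine ⟨?_, by rw [hm']; exact hmp⟩
      have := Nat.div_le_div_right (c := l) hmn
      omega
    exact (Finset.card_le_card hsub).trans Finset.card_image_le
  have h3 := hC (a % l) l N hN2 (Or.inr hl)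
  have hNR : (2 : ℝ) ≤ N := by exact_mod_cast hN2
  have hNge : (n : ℝ) / l ≤ N := by
    have h := Nat.lt_div_mul_add (a := n) hl.pos
    rw [div_le_iff₀ hl0]
    have h' : n ≤ N * l := by
      rw [hN]; nlinarith
    exact_mod_cast h'
  have hNle : (N : ℝ) ≤ 2 * (n / l) := by
    have h4 : ((n / l : ℕ) : ℝ) ≤ (n : ℝ) / l := Nat.cast_div_le
    have h5 : (1 : ℝ) ≤ (n : ℝ) / l := by
      rw [le_div_iff₀ hl0]; linarith
    rw [hN]; push_cast
    linarith
  have hlogN : Real.log n / 3 ≤ Real.log N := by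
    have h6 : (n : ℝ) ^ (1 / 3 : ℝ) ≤ N := by
      refine le_trans ?_ hNge
      rw [le_div_iff₀ hl0]
      calc (n : ℝ) ^ (1 / 3 : ℝ) * l ≤ (n : ℝ) ^ (1 / 3 : ℝ) * (n : ℝ) ^ (2 / 3 : ℝ) :=
            mul_le_mul_of_nonneg_left hln (by positivity)
        _ = n := by
            rw [← Real.rpow_add hn0]; norm_num
    have h7 := Real.log_le_log (by positivity) h6
    rw [Real.log_rpow hn0] at h7
    linarith
  have h8 : C * N / Real.log N ≤ C * (2 * (n / l)) / (Real.log n / 3) := by
    have hC0 : 0 ≤ C := by linarith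
    apply div_le_div₀
    · positivity
    · exact mul_le_mul_of_nonneg_left hNle hC0
    · positivity
    · exact hlogN
  have h9 : (P.card : ℝ) ≤ C * (2 * (n / l)) / (Real.log n / 3) := by
    have : (P.card : ℝ) ≤ (((Finset.range N).filter (fun k => (a % l + k * l).Prime)).card : ℝ) := by
      exact_mod_cast h2
    linarith
  calc TT n l a ≤ (P.card : ℝ) * Real.log n := h1
    _ ≤ C * (2 * (n / l)) / (Real.log n / 3) * Real.log n :=
        mul_le_mul_of_nonneg_right h9 hlogn.le
    _ = 6 * C * n / l := by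
        field_simp
        ring

end Pool.Agent.H98R2.Nt
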