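import Mathlib
import Pool.Agent.H98R2.Nt.Defs
import Pool.Agent.H98R2.Nt.N1
import Pool.Agent.H98R2.Nt.N4
import Pool.Agent.H98R2.Nt.Exch
import Pool.Agent.Erdos456.Mertens

set_option autoImplicit false

namespace Pool.Agent.H98R2.Nt

open Finset

/- ===== N6 ===== (file Nt/N6.lean) middle primes -/

theorem mid_mass : ∃ C : ℝ, 1 ≤ C ∧ ∀ δ η : ℝ, 0 < δ → δ ≤ 1 / 10 → 0 < η → η ≤ 1 / 10 →
    ∃ n₀ : ℕ, ∀ n : ℕ, n₀ ≤ n → ∀ (f : ℕ → ℕ) (a : ℕ), Shift n f a →
      ∑ m ∈ Icc 1 n, wt n m * ∑ l ∈ pw (f m) ((n : ℝ) ^ (1 / 2 - δ)) ((n : ℝ) ^ (1 / 2 + η)),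
        Real.log l ≤ C * (δ + η) * n * Real.log n := by
  classical
  obtain ⟨C1, hC1, n1, hBT⟩ := bt_wt
  obtain ⟨C, hC⟩ := Pool.Agent.Erdos456.Mert.mertens_log
  have hCabs : 0 ≤ C := (abs_nonneg _).trans (hC 1 le_rfl)
  refine ⟨2 * C1, by linarith, fun δ η hδ hδ2 hη hη2 => ?_⟩
  have htend : Filter.Tendsto (fun n : ℕ => Real.log (n : ℝ)) Filter.atTop Filter.atTop :=
    Real.tendsto_log_atTop.comp tendsto_natCast_atTop_atTop
  obtain ⟨n4, hn4⟩ := Filter.eventually_atTop.1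
    (htend.eventually_ge_atTop (max 1 ((2 * C + 1) / (δ + η))))
  refine ⟨max n1 (max n4 16), fun n hn f a hS => ?_⟩
  have hn1 : n1 ≤ n := by omega
  have hn16 : 16 ≤ n := by omega
  have hlog := hn4 n (by omega)
  have hlog1 : 1 ≤ Real.log n := (le_max_left _ _).trans hlog
  have hlog2 : (2 * C + 1) / (δ + η) ≤ Real.log n := (le_max_right _ _).trans hlog
  have hnR : (16 : ℝ) ≤ n := by exact_mod_cast hn16
  have hn0 : (0 : ℝ) < n := by linarith
  set y : ℝ := (n : ℝ) ^ (1 / 2 - δ) with hy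
  set z : ℝ := (n : ℝ) ^ (1 / 2 + η) with hz
  have hy1 : 1 ≤ y := Real.one_le_rpow (by linarith) (by linarith)
  have hyz : y ≤ z := Real.rpow_le_rpow_of_exponent_le (by linarith) (by linarith)
  have hz1 : 1 ≤ z := hy1.trans hyz
  set Y : ℕ := ⌊y⌋₊ with hY
  set Z : ℕ := ⌊z⌋₊ with hZ
  have hY1 : 1 ≤ Y := Nat.floor_pos.mpr hy1
  have hZ1 : 1 ≤ Z := Nat.floor_pos.mpr hz1
  have hYZ : Y ≤ Z := Nat.floor_le_floor hyz
  have hZz : (Z : ℝ) ≤ z := Nat.floor_le (by linarith)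
  have hYy : y < Y + 1 := Nat.lt_floor_add_one y
  have hY0 : (1 : ℝ) ≤ Y := by exact_mod_cast hY1
  have hZ0 : (0 : ℝ) < Z := by exact_mod_cast hZ1
  have hlogZ : Real.log Z ≤ (1 / 2 + η) * Real.log n := by
    have := Real.log_le_log hZ0 hZz
    rwa [hz, Real.log_rpow hn0] at this
  have hlogY : (1 / 2 - δ) * Real.log n - 1 ≤ Real.log Y := by
    have h1 : y ≤ 2 * Y := by linarith
    have h2 := Real.log_le_log (by linarith) h1
    rw [hy, Real.log_rpow hn0, Real.log_mul (by norm_num) (by linarith)] at h2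
    have h3 : Real.log 2 ≤ 1 := by
      have := Real.log_le_sub_one_of_pos (show (0 : ℝ) < 2 by norm_num)
      linarith
    linarith
  refine (exch_sum n f a hS y z).trans ?_
  set W := (Icc 1 Z).filter (fun l : ℕ => l.Prime ∧ y < (l : ℝ)) with hW
  have hpt : ∀ l ∈ W, Real.log l * TT n l a ≤ C1 * n * (Real.log l / l) := by
    intro l hl
    rw [hW, Finset.mem_filter, Finset.mem_Icc] at hl
    obtain ⟨⟨hl1, hlZ⟩, hlp, _⟩ := hl
    have hl2 : (2 : ℝ) ≤ l := by exact_mod_cast hlp.two_le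
    have hll : 0 ≤ Real.log l := Real.log_nonneg (by linarith)
    have hlZ' : (l : ℝ) ≤ Z := by exact_mod_cast hlZ
    have hle : (l : ℝ) ≤ (n : ℝ) ^ (2 / 3 : ℝ) := by
      refine (hlZ'.trans hZz).trans ?_
      exact Real.rpow_le_rpow_of_exponent_le (by linarith) (by linarith)
    have h := hBT n hn1 l a hlp hle
    calc Real.log l * TT n l a ≤ Real.log l * (C1 * n / l) := mul_le_mul_of_nonneg_left h hll
      _ = C1 * n * (Real.log l / l) := by ring
  have hWsum : ∑ l ∈ W, Real.log l / (l : ℝ) ≤ (δ + η) * Real.log n + 1 + 2 * C := by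
    have hZs := (abs_le.1 (hC Z hZ1)).2
    have hYs := (abs_le.1 (hC Y hY1)).1
    have hdisj : Disjoint W ((Icc 1 Y).filter Nat.Prime) := by
      rw [Finset.disjoint_left]
      intro l hl1 hl2
      rw [hW, Finset.mem_filter] at hl1
      rw [Finset.mem_filter, Finset.mem_Icc] at hl2
      have h1 : (l : ℝ) ≤ Y := by exact_mod_cast hl2.1.2
      have h2 : (Y : ℝ) ≤ y := Nat.floor_le (by linarith)
      linarith [hl1.2.2]
    have hsub : W ∪ ((Icc 1 Y).filter Nat.Prime) ⊆ (Icc 1 Z).filter Nat.Prime := by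
      intro l hl
      rw [Finset.mem_union] at hl
      rw [Finset.mem_filter, Finset.mem_Icc]
      rcases hl with hl | hl
      · rw [hW, Finset.mem_filter, Finset.mem_Icc] at hl
        exact ⟨hl.1, hl.2.1⟩
      · rw [Finset.mem_filter, Finset.mem_Icc] at hl
        exact ⟨⟨hl.1.1, hl.1.2.trans hYZ⟩, hl.2⟩
    have h3 : ∑ l ∈ W ∪ ((Icc 1 Y).filter Nat.Prime), Real.log l / (l : ℝ) ≤
        ∑ l ∈ (Icc 1 Z).filter Nat.Prime, Real.log l / (l : ℝ) := by
      refine Finset.sum_le_sum_of_subset_of_nonneg hsub fun l hl _ => ?_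
      rw [Finset.mem_filter, Finset.mem_Icc] at hl
      apply div_nonneg
      · apply Real.log_nonneg
        exact_mod_cast hl.1.1
      · positivity
    rw [Finset.sum_union hdisj] at h3
    linarith
  calc ∑ l ∈ W, Real.log l * TT n l a ≤ ∑ l ∈ W, C1 * n * (Real.log l / l) :=
        Finset.sum_le_sum hpt
    _ = C1 * n * ∑ l ∈ W, Real.log l / (l : ℝ) := by rw [Finset.mul_sum]
    _ ≤ C1 * n * ((δ + η) * Real.log n + 1 + 2 * C) :=
        mul_le_mul_of_nonneg_left hWsum (by positivity)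
    _ ≤ 2 * C1 * (δ + η) * n * Real.log n := by
        have h3 : 2 * C + 1 ≤ (δ + η) * Real.log n := by
          rw [div_le_iff₀ (by linarith)] at hlog2
          linarith
        have h4 : C1 * n * (2 * C + 1) ≤ C1 * n * ((δ + η) * Real.log n) :=
          mul_le_mul_of_nonneg_left h3 (by positivity)
        nlinarith

end Pool.Agent.H98R2.Nt
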