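import Mathlib
import Pool.Agent.H98R2.Nt.Defs
import Pool.Agent.H98R2.Nt.N1
import Pool.Agent.H98R2.Nt.N2

set_option autoImplicit false

/-! Evasiveness project of helper98, task N7: prime powers dividing `f m` have little mass. -/

namespace Pool.Agent.H98R2.Nt

open Finset

theorem rad_log (N : ℕ) (hN : 1 ≤ N) : ∃ d : ℕ, 1 ≤ d ∧ d ^ 2 ∣ N ∧
    Real.log N - 2 * Real.log d ≤ ∑ l ∈ N.primeFactors, Real.log l := by
  obtain ⟨a, b, hab, hsq⟩ := Nat.sq_mul_squarefree N
  have ha : a ≠ 0 := by rintro rfl; omega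
  have hb : b ≠ 0 := by rintro rfl; simp at hab; omega
  refine ⟨b, Nat.one_le_iff_ne_zero.2 hb, ⟨a, hab.symm⟩, ?_⟩
  have hN0 : (N : ℝ) = (b : ℝ) ^ 2 * a := by rw [← hab]; push_cast; ring
  have ha' : (a : ℝ) ≠ 0 := by exact_mod_cast ha
  have hb' : (b : ℝ) ≠ 0 := by exact_mod_cast hb
  rw [hN0, Real.log_mul (pow_ne_zero 2 hb') ha', Real.log_pow]
  have h1 : Real.log a = ∑ l ∈ a.primeFactors, Real.log l := by
    rw [← Real.log_prod]
    · congr 1
      have := Nat.prod_primeFactors_of_squarefree hsq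
      conv_lhs => rw [← this]
      push_cast
      rfl
    · intro l hl
      have := (Nat.prime_of_mem_primeFactors hl).pos
      positivity
  have h2 : ∑ l ∈ a.primeFactors, Real.log l ≤ ∑ l ∈ N.primeFactors, Real.log l := by
    apply sum_le_sum_of_subset_of_nonneg
    · exact Nat.primeFactors_mono ⟨b ^ 2, by rw [← hab]; ring⟩ (by omega)
    · intro l _ _
      exact Real.log_natCast_nonneg l
  push_cast
  linarith

theorem sq_count (n D : ℕ) (hD : 1 ≤ D) (f : ℕ → ℕ) (S : Finset ℕ)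
    (hinj : ∀ m ∈ S, ∀ m' ∈ S, f m = f m' → m = m') (hle : ∀ m ∈ S, 1 ≤ f m ∧ f m ≤ n)
    (hbad : ∀ m ∈ S, ∃ d : ℕ, D < d ∧ d ^ 2 ∣ f m) : (S.card : ℝ) ≤ n / D := by
  classical
  have h1 : S.card = (S.image f).card := (card_image_of_injOn (fun a ha b hb h => hinj a ha b hb h)).symm
  have h2 : S.image f ⊆ (Ioc D n).biUnion (fun d => (Ioc 0 n).filter (fun N => d ^ 2 ∣ N)) := by
    intro N hN
    rw [mem_image] at hN
    obtain ⟨m, hm, rfl⟩ := hN
    obtain ⟨d, hd, hdv⟩ := hbad m hm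
    obtain ⟨h3, h4⟩ := hle m hm
    rw [mem_biUnion]
    refine ⟨d, ?_, ?_⟩
    · rw [mem_Ioc]
      refine ⟨hd, ?_⟩
      have h5 : d ^ 2 ≤ f m := Nat.le_of_dvd (by omega) hdv
      nlinarith
    · rw [mem_filter, mem_Ioc]
      exact ⟨⟨by omega, h4⟩, hdv⟩
  have h3 : (S.card : ℝ) ≤ ∑ d ∈ Ioc D n, ((n / d ^ 2 : ℕ) : ℝ) := by
    rw [h1]
    have h4 := (card_le_card h2).trans card_biUnion_le
    have h5 : ∑ d ∈ Ioc D n, ((Ioc 0 n).filter (fun N => d ^ 2 ∣ N)).card =
        ∑ d ∈ Ioc D n, n / d ^ 2 := by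
      apply sum_congr rfl
      intro d _
      exact Nat.Ioc_filter_dvd_card_eq_div n (d ^ 2)
    rw [h5] at h4
    exact_mod_cast h4
  refine h3.trans ?_
  rcases Nat.lt_or_ge n D with hnD | hnD
  · rw [Ioc_eq_empty (by omega), sum_empty]
    positivity
  have h6 : ∑ d ∈ Ioc D n, ((n / d ^ 2 : ℕ) : ℝ) ≤ ∑ d ∈ Ioc D n, (n : ℝ) * ((d : ℝ) ^ 2)⁻¹ := by
    apply sum_le_sum
    intro d _
    have := @Nat.cast_div_le ℝ _ _ _ n (d ^ 2)
    push_cast at this
    rw [div_eq_mul_inv] at this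
    exact this
  have h7 := sum_Ioc_inv_sq_le_sub (α := ℝ) (k := D) (n := n) (by omega) hnD
  calc ∑ d ∈ Ioc D n, ((n / d ^ 2 : ℕ) : ℝ) ≤ ∑ d ∈ Ioc D n, (n : ℝ) * ((d : ℝ) ^ 2)⁻¹ := h6
    _ = n * ∑ d ∈ Ioc D n, ((d : ℝ) ^ 2)⁻¹ := by rw [mul_sum]
    _ ≤ n * ((D : ℝ)⁻¹ - (n : ℝ)⁻¹) := mul_le_mul_of_nonneg_left h7 (Nat.cast_nonneg _)
    _ ≤ n * (D : ℝ)⁻¹ := by
        apply mul_le_mul_of_nonneg_left _ (Nat.cast_nonneg _)
        have : (0 : ℝ) ≤ (n : ℝ)⁻¹ := by positivity
        linarith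
    _ = n / D := by rw [div_eq_mul_inv]

theorem pow_mass (ε : ℝ) (hε : 0 < ε) :
    ∃ n₀ : ℕ, ∀ n : ℕ, n₀ ≤ n → ∀ (f : ℕ → ℕ) (a : ℕ), Shift n f a →
      (1 - ε) * MM n * Real.log n ≤
        ∑ m ∈ Icc 1 n, wt n m * ∑ l ∈ (f m).primeFactors, Real.log l := by
  classical
  obtain ⟨n1, hn1⟩ := MM_bounds
  -- growth conditions
  have hev1 : ∀ᶠ x : ℝ in Filter.atTop, Real.log x ≤ (ε / 160) * x ^ (ε / 8) := by
    have h := (isLittleO_log_rpow_atTop (show (0 : ℝ) < ε / 8 by positivity)).bound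
      (show (0 : ℝ) < ε / 160 by positivity)
    filter_upwards [h, Filter.eventually_ge_atTop 1] with x hx hx1
    rw [Real.norm_of_nonneg (Real.log_nonneg hx1), Real.norm_of_nonneg (by positivity)] at hx
    exact hx
  have hev2 : ∀ᶠ x : ℝ in Filter.atTop, Real.log 20 ≤ (ε / 4) * Real.log x := by
    have := Real.tendsto_log_atTop.const_mul_atTop (show (0 : ℝ) < ε / 4 by positivity)
    exact this.eventually_ge_atTop _
  obtain ⟨x0, hx0⟩ := Filter.eventually_atTop.1 (hev1.and hev2)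
  refine ⟨max (max n1 ⌈x0⌉₊) 20, fun n hn f a hf => ?_⟩
  have hnn1 : n1 ≤ n := le_trans (le_trans (le_max_left _ _) (le_max_left _ _)) hn
  have hnx0 : x0 ≤ (n : ℝ) :=
    (Nat.le_ceil x0).trans (by exact_mod_cast le_trans (le_trans (le_max_right _ _) (le_max_left _ _)) hn)
  have hn20 : 20 ≤ n := le_trans (le_max_right _ _) hn
  have hn0 : (0 : ℝ) < n := by
    have : 0 < n := by omega
    exact_mod_cast this
  have hn1' : (20 : ℝ) ≤ n := by exact_mod_cast hn20
  obtain ⟨hM1, hM2⟩ := hn1 n hnn1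
  obtain ⟨hL1, hL2⟩ := hx0 n hnx0
  have hlog0 : 0 ≤ Real.log n := Real.log_nonneg (by linarith)
  have hterm : ∀ m ∈ Icc 1 n, 0 ≤ wt n m * ∑ l ∈ (f m).primeFactors, Real.log l := by
    intro m _
    apply mul_nonneg (wt_nonneg n m)
    apply sum_nonneg
    intro l _
    exact Real.log_natCast_nonneg l
  rcases le_or_gt 1 ε with h1 | h1
  · have : (1 - ε) * MM n * Real.log n ≤ 0 := by
      apply mul_nonpos_of_nonpos_of_nonneg _ hlog0
      apply mul_nonpos_of_nonpos_of_nonneg (by linarith)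
      linarith [show (0 : ℝ) ≤ (n : ℝ) / 40 by positivity]
    exact this.trans (sum_nonneg hterm)
  set D : ℕ := ⌈(n : ℝ) ^ (ε / 8)⌉₊ with hD
  have hrp : 1 ≤ (n : ℝ) ^ (ε / 8) := Real.one_le_rpow (by linarith) (by positivity)
  have hD1 : (n : ℝ) ^ (ε / 8) ≤ D := Nat.le_ceil _
  have hD2 : (D : ℝ) ≤ 2 * (n : ℝ) ^ (ε / 8) := by
    have := (Nat.ceil_lt_add_one (show (0 : ℝ) ≤ (n : ℝ) ^ (ε / 8) by positivity)).le
    rw [← hD] at this
    linarith
  have hDpos : 1 ≤ D := by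
    have : (1 : ℝ) ≤ D := hrp.trans hD1
    exact_mod_cast this
  have hlogD : Real.log D ≤ Real.log 2 + (ε / 8) * Real.log n := by
    have h2 : Real.log D ≤ Real.log (2 * (n : ℝ) ^ (ε / 8)) :=
      Real.log_le_log (by exact_mod_cast hDpos) hD2
    rw [Real.log_mul (by norm_num) (by positivity), Real.log_rpow hn0] at h2
    exact h2
  -- good and bad
  set Bd : Finset ℕ := (Icc 1 n).filter (fun m => wt n m ≠ 0 ∧ ∃ d : ℕ, D < d ∧ d ^ 2 ∣ f m) with hBd
  have hBcard : (Bd.card : ℝ) ≤ n / D := by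
    apply sq_count n D hDpos f Bd
    · intro m hm m' hm' h
      rw [hBd, mem_filter, mem_Icc] at hm hm'
      exact hf.inj m m' hm.1.1 hm.1.2 hm'.1.1 hm'.1.2 h
    · intro m hm
      rw [hBd, mem_filter, mem_Icc] at hm
      refine ⟨?_, hf.le m hm.1.1 hm.1.2⟩
      obtain ⟨_, h3, h4⟩ := wt_supp n m hm.2.1
      have := hf.ge m h3 h4
      omega
    · intro m hm
      rw [hBd, mem_filter] at hm
      exact hm.2.2
  have hBw : ∑ m ∈ Bd, wt n m ≤ (ε / 4) * MM n := by
    calc ∑ m ∈ Bd, wt n m ≤ ∑ m ∈ Bd, Real.log n := by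
          apply sum_le_sum
          intro m hm
          rw [hBd, mem_filter, mem_Icc] at hm
          exact wt_le n m hm.1.2
      _ = Bd.card * Real.log n := by rw [sum_const, nsmul_eq_mul]
      _ ≤ (n / D) * Real.log n := mul_le_mul_of_nonneg_right hBcard hlog0
      _ ≤ (n / D) * ((ε / 160) * (n : ℝ) ^ (ε / 8)) := by
          apply mul_le_mul_of_nonneg_left hL1; positivity
      _ ≤ (n / D) * ((ε / 160) * D) := by
          apply mul_le_mul_of_nonneg_left _ (by positivity)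
          apply mul_le_mul_of_nonneg_left hD1 (by positivity)
      _ = (ε / 4) * (n / 40) := by
          have : (D : ℝ) ≠ 0 := by
            have : (0 : ℝ) < D := by exact_mod_cast hDpos
            exact this.ne'
          field_simp
          ring
      _ ≤ (ε / 4) * MM n := by
          apply mul_le_mul_of_nonneg_left hM1 (by positivity)
  set W : ℝ := (1 - ε / 2) * Real.log n with hW
  have hW0 : 0 ≤ W := mul_nonneg (by linarith) hlog0
  have hgood : ∀ m ∈ Icc 1 n, m ∉ Bd → wt n m * W ≤ wt n m * ∑ l ∈ (f m).primeFactors, Real.log l := by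
    intro m hm hmB
    rcases eq_or_ne (wt n m) 0 with h0 | h0
    · rw [h0, zero_mul, zero_mul]
    · apply mul_le_mul_of_nonneg_left _ (wt_nonneg n m)
      rw [mem_Icc] at hm
      obtain ⟨_, h3, h4⟩ := wt_supp n m h0
      have h5 := hf.ge m h3 h4
      have h6 : 1 ≤ f m := by omega
      obtain ⟨d, hd1, hd2, hd3⟩ := rad_log (f m) h6
      have hdD : d ≤ D := by
        by_contra hcon
        apply hmB
        rw [hBd, mem_filter, mem_Icc]
        exact ⟨hm, h0, d, by omega, hd2⟩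
      have h7 : Real.log d ≤ Real.log D :=
        Real.log_le_log (by exact_mod_cast hd1) (by exact_mod_cast hdD)
      have h8 : Real.log n - Real.log 5 ≤ Real.log (f m) := by
        rw [← Real.log_div hn0.ne' (by norm_num)]
        apply Real.log_le_log (by positivity)
        rw [div_le_iff₀ (by norm_num)]
        have : (n : ℝ) ≤ 5 * f m := by exact_mod_cast h5
        linarith
      have h9 : Real.log 20 = Real.log 5 + 2 * Real.log 2 := by
        rw [show (20 : ℝ) = 5 * 2 ^ 2 by norm_num, Real.log_mul (by norm_num) (by norm_num),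
          Real.log_pow]
        push_cast; ring
      have : W ≤ Real.log (f m) - 2 * Real.log d := by
        rw [hW]
        nlinarith
      linarith
  have hsplit : MM n = ∑ m ∈ (Icc 1 n).filter (fun m => m ∉ Bd), wt n m + ∑ m ∈ Bd, wt n m := by
    unfold MM
    rw [← sum_filter_add_sum_filter_not (Icc 1 n) (fun m => m ∉ Bd)]
    congr 1
    apply sum_congr _ (fun _ _ => rfl)
    ext m
    simp only [mem_filter, not_not]
    constructor
    · rintro ⟨_, h⟩; exact h
    · intro h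
      exact ⟨by rw [hBd, mem_filter] at h; exact h.1, h⟩
  calc (1 - ε) * MM n * Real.log n ≤ ((1 - ε / 4) * MM n) * W := by
        have hMM0 : 0 ≤ MM n := le_trans (by positivity) hM1
        have : (1 - ε) * MM n * Real.log n = (1 - ε) * (MM n * Real.log n) := by ring
        rw [this, hW]
        have h10 : (1 - ε / 4) * MM n * ((1 - ε / 2) * Real.log n) =
          ((1 - ε / 4) * (1 - ε / 2)) * (MM n * Real.log n) := by ring
        rw [h10]
        apply mul_le_mul_of_nonneg_right _ (mul_nonneg hMM0 hlog0)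
        nlinarith
    _ ≤ (∑ m ∈ (Icc 1 n).filter (fun m => m ∉ Bd), wt n m) * W := by
        apply mul_le_mul_of_nonneg_right _ hW0
        linarith
    _ = ∑ m ∈ (Icc 1 n).filter (fun m => m ∉ Bd), wt n m * W := by rw [sum_mul]
    _ ≤ ∑ m ∈ (Icc 1 n).filter (fun m => m ∉ Bd), wt n m * ∑ l ∈ (f m).primeFactors, Real.log l := by
        apply sum_le_sum
        intro m hm
        rw [mem_filter] at hm
        exact hgood m hm.1 hm.2
    _ ≤ _ := sum_le_sum_of_subset_of_nonneg (filter_subset _ _) (fun m hm _ => hterm m hm)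

end Pool.Agent.H98R2.Nt
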