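import Mathlib
import Pool.Agent.H98R2.Nt.Defs
import Pool.Agent.H98R2.Nt.N7
import Pool.Agent.H98R2.Nt.N1
import Pool.Agent.H98R2.Nt.N2
import Pool.Agent.H98R2.Nt.N5
import Pool.Agent.H98R2.Nt.N6

set_option autoImplicit false

/-! Evasiveness project of helper98, task N8: large primes dividing `f m` have mass almost one
half. -/

namespace Pool.Agent.H98R2.Nt

open Finset

theorem sum_split (n N : ℕ) (y1 y2 : ℝ) (_h1 : 0 ≤ y1) (h12 : y1 ≤ y2) (_h2 : y2 ≤ n) (hN : 1 ≤ N)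
    (hNn : N ≤ n) :
    ∑ l ∈ N.primeFactors, Real.log l = ∑ l ∈ pw N 0 y1, Real.log l +
      ∑ l ∈ pw N y1 y2, Real.log l + ∑ l ∈ pw N y2 n, Real.log l := by
  classical
  have hle : ∀ l ∈ N.primeFactors, (0 : ℝ) < l ∧ (l : ℝ) ≤ n := by
    intro l hl
    have h3 := (Nat.prime_of_mem_primeFactors hl).pos
    have h4 := Nat.le_of_dvd (by omega) (Nat.dvd_of_mem_primeFactors hl)
    exact ⟨by exact_mod_cast h3, by exact_mod_cast h4.trans hNn⟩
  have key : ∀ g : ℕ → ℝ, ∀ y z : ℝ, ∑ l ∈ pw N y z, g l =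
      ∑ l ∈ N.primeFactors, if y < (l : ℝ) ∧ (l : ℝ) ≤ z then g l else 0 := by
    intro g y z
    unfold pw
    rw [sum_filter]
  rw [key, key, key, ← sum_add_distrib, ← sum_add_distrib]
  apply sum_congr rfl
  intro l hl
  obtain ⟨a1, a2⟩ := hle l hl
  rcases le_or_gt (l : ℝ) y1 with b1 | b1
  · rw [if_pos ⟨a1, b1⟩, if_neg (by intro h; linarith [h.1]), if_neg (by intro h; linarith [h.1])]
    ring
  · rcases le_or_gt (l : ℝ) y2 with b2 | b2
    · rw [if_neg (by intro h; linarith [h.2]), if_pos ⟨b1, b2⟩, if_neg (by intro h; linarith [h.1])]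
      ring
    · rw [if_neg (by intro h; linarith [h.2]), if_neg (by intro h; linarith [h.2]), if_pos ⟨b2, a2⟩]
      ring

theorem large_mass (ε : ℝ) (hε : 0 < ε) : ∃ η₀ : ℝ, 0 < η₀ ∧ η₀ ≤ 1 / 10 ∧ ∀ η : ℝ, 0 < η →
    η ≤ η₀ → ∃ n₀ : ℕ, ∀ n : ℕ, n₀ ≤ n → ∀ (f : ℕ → ℕ) (a : ℕ), Shift n f a →
      (1 / 2 - ε) * MM n * Real.log n ≤
        ∑ m ∈ Icc 1 n, wt n m * ∑ l ∈ pw (f m) ((n : ℝ) ^ (1 / 2 + η)) n, Real.log l := by
  obtain ⟨C, hC1, hmid⟩ := mid_mass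
  have hC0 : 0 < C := by linarith
  set δ : ℝ := min (1 / 10) (ε / (400 * C)) with hδ
  have hδ0 : 0 < δ := lt_min (by norm_num) (by positivity)
  have hδ1 : δ ≤ 1 / 10 := min_le_left _ _
  have hδ2 : δ ≤ ε / (400 * C) := min_le_right _ _
  have hδ3 : 400 * C * δ ≤ ε := by
    rw [le_div_iff₀ (by positivity)] at hδ2
    linarith
  refine ⟨δ, hδ0, hδ1, fun η hη hηδ => ?_⟩
  obtain ⟨n1, h1⟩ := MM_bounds
  obtain ⟨n2, h2⟩ := small_mass δ hδ0 (by linarith) (ε / 4) (by positivity)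
  obtain ⟨n3, h3⟩ := hmid δ η hδ0 hδ1 hη (by linarith)
  obtain ⟨n4, h4⟩ := pow_mass (ε / 4) (by positivity)
  refine ⟨max (max n1 n2) (max (max n3 n4) 20), fun n hn f a hf => ?_⟩
  have g1 : n1 ≤ n := le_trans (le_trans (le_max_left _ _) (le_max_left _ _)) hn
  have g2 : n2 ≤ n := le_trans (le_trans (le_max_right _ _) (le_max_left _ _)) hn
  have g3 : n3 ≤ n :=
    le_trans (le_trans (le_trans (le_max_left _ _) (le_max_left _ _)) (le_max_right _ _)) hn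
  have g4 : n4 ≤ n :=
    le_trans (le_trans (le_trans (le_max_right _ _) (le_max_left _ _)) (le_max_right _ _)) hn
  have g5 : 20 ≤ n := le_trans (le_trans (le_max_right _ _) (le_max_right _ _)) hn
  obtain ⟨hM1, _⟩ := h1 n g1
  have hS := h2 n g2 f a hf
  have hMd := h3 n g3 f a hf
  have hP := h4 n g4 f a hf
  have hn20 : (20 : ℝ) ≤ n := by exact_mod_cast g5
  have hlog0 : 0 ≤ Real.log n := Real.log_nonneg (by linarith)
  have hy12 : (n : ℝ) ^ (1 / 2 - δ) ≤ (n : ℝ) ^ (1 / 2 + η) :=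
    Real.rpow_le_rpow_of_exponent_le (by linarith) (by linarith)
  have hy2 : (n : ℝ) ^ (1 / 2 + η) ≤ n := by
    calc (n : ℝ) ^ (1 / 2 + η) ≤ (n : ℝ) ^ (1 : ℝ) :=
          Real.rpow_le_rpow_of_exponent_le (by linarith) (by linarith)
      _ = n := Real.rpow_one _
  have hsplit : ∑ m ∈ Icc 1 n, wt n m * ∑ l ∈ (f m).primeFactors, Real.log l =
      ∑ m ∈ Icc 1 n, wt n m * ∑ l ∈ pw (f m) 0 ((n : ℝ) ^ (1 / 2 - δ)), Real.log l +
      ∑ m ∈ Icc 1 n, wt n m * ∑ l ∈ pw (f m) ((n : ℝ) ^ (1 / 2 - δ)) ((n : ℝ) ^ (1 / 2 + η)),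
        Real.log l +
      ∑ m ∈ Icc 1 n, wt n m * ∑ l ∈ pw (f m) ((n : ℝ) ^ (1 / 2 + η)) n, Real.log l := by
    rw [← sum_add_distrib, ← sum_add_distrib]
    apply sum_congr rfl
    intro m hm
    rcases eq_or_ne (wt n m) 0 with h0 | h0
    · rw [h0]; ring
    · rw [mem_Icc] at hm
      obtain ⟨_, h5, h6⟩ := wt_supp n m h0
      have h7 := hf.ge m h5 h6
      rw [sum_split n (f m) _ _ (by positivity) hy12 hy2 (by omega) (hf.le m hm.1 hm.2)]
      ring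
  have hMM0 : 0 ≤ MM n := le_trans (by positivity) hM1
  have hn40 : (n : ℝ) ≤ 40 * MM n := by linarith
  have hmid2 : C * (δ + η) * n * Real.log n ≤ (ε / 5) * MM n * Real.log n := by
    apply mul_le_mul_of_nonneg_right _ hlog0
    calc C * (δ + η) * n ≤ C * (δ + δ) * n := by
          apply mul_le_mul_of_nonneg_right _ (by linarith)
          apply mul_le_mul_of_nonneg_left (by linarith) hC0.le
      _ ≤ C * (δ + δ) * (40 * MM n) := by
          apply mul_le_mul_of_nonneg_left hn40; positivity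
      _ = (80 * C * δ) * MM n := by ring
      _ ≤ (ε / 5) * MM n := by
          apply mul_le_mul_of_nonneg_right _ hMM0
          linarith
  have hML : 0 ≤ MM n * Real.log n := mul_nonneg hMM0 hlog0
  nlinarith [mul_nonneg hδ0.le hML, mul_nonneg hε.le hML]

end Pool.Agent.H98R2.Nt
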