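import Mathlib
import Pool.Agent.H98R2.Nt.Defs
import Pool.Agent.H98R2.Nt.N8
import Pool.Agent.H98R2.Nt.N9
import Pool.Agent.H98R2.Nt.N10

set_option autoImplicit false

/-! Evasiveness project of helper98, task N11: existence of good primes. -/

namespace Pool.Agent.H98R2.Nt

open Finset

open Classical in
theorem WP_eq (n : ℕ) (P : ℕ → Prop) : WP n P = ∑ m ∈ Icc 1 n, if P m then wt n m else 0 := by
  unfold WP
  rw [sum_filter]

/-- at most one prime factor above `n^(1/2+η)` -/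
theorem pw_unique (n N : ℕ) (η : ℝ) (hη : 0 < η) (hn : 2 ≤ n) (hN : 1 ≤ N) (hNn : N ≤ n)
    (l l' : ℕ) (hl : l ∈ pw N ((n : ℝ) ^ (1 / 2 + η)) n) (hl' : l' ∈ pw N ((n : ℝ) ^ (1 / 2 + η)) n) :
    l = l' := by
  classical
  unfold pw at hl hl'
  rw [mem_filter] at hl hl'
  by_contra hne
  have p1 := Nat.prime_of_mem_primeFactors hl.1
  have p2 := Nat.prime_of_mem_primeFactors hl'.1
  have hd : l * l' ∣ N := Nat.Coprime.mul_dvd_of_dvd_of_dvd ((Nat.coprime_primes p1 p2).2 hne)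
    (Nat.dvd_of_mem_primeFactors hl.1) (Nat.dvd_of_mem_primeFactors hl'.1)
  have hle : l * l' ≤ n := (Nat.le_of_dvd (by omega) hd).trans hNn
  have hn1 : (1 : ℝ) ≤ n := by
    have : 1 ≤ n := by omega
    exact_mod_cast this
  have hn0 : (0 : ℝ) < n := by linarith
  have h1 : (n : ℝ) ≤ (n : ℝ) ^ (1 / 2 + η) * (n : ℝ) ^ (1 / 2 + η) := by
    rw [← Real.rpow_add hn0]
    calc (n : ℝ) = (n : ℝ) ^ (1 : ℝ) := (Real.rpow_one _).symm
      _ ≤ _ := Real.rpow_le_rpow_of_exponent_le hn1 (by linarith)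
  have h0 : 0 < (n : ℝ) ^ (1 / 2 + η) := by positivity
  have h2 : (n : ℝ) ^ (1 / 2 + η) * (n : ℝ) ^ (1 / 2 + η) < (l : ℝ) * l' := by
    apply mul_lt_mul'' hl.2.1 hl'.2.1 h0.le h0.le
  have h3 : ((l * l' : ℕ) : ℝ) ≤ n := by exact_mod_cast hle
  push_cast at h3
  linarith

theorem pw_log_le (n N : ℕ) (η : ℝ) (hη : 0 < η) (hn : 2 ≤ n) (hN : 1 ≤ N) (hNn : N ≤ n) (c : ℝ)
    (hc : 0 ≤ c) (h : ∀ l : ℕ, l.Prime → l ∣ N → (n : ℝ) ^ (1 / 2 + η) < l → Real.log l ≤ c) :
    ∑ l ∈ pw N ((n : ℝ) ^ (1 / 2 + η)) n, Real.log l ≤ c := by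
  classical
  rcases (pw N ((n : ℝ) ^ (1 / 2 + η)) n).eq_empty_or_nonempty with h0 | ⟨l, hl⟩
  · rw [h0, sum_empty]; exact hc
  · have h1 : pw N ((n : ℝ) ^ (1 / 2 + η)) n = {l} := by
      ext l'
      rw [mem_singleton]
      constructor
      · intro h'; exact pw_unique n N η hη hn hN hNn l' l h' hl
      · rintro rfl; exact hl
    rw [h1, sum_singleton]
    unfold pw at hl
    rw [mem_filter] at hl
    exact h l (Nat.prime_of_mem_primeFactors hl.1) (Nat.dvd_of_mem_primeFactors hl.1) hl.2.1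

theorem good_primes : ∃ η : ℝ, 0 < η ∧ η ≤ 1 / 10 ∧ ∃ n₀ : ℕ, ∀ n : ℕ, n₀ ≤ n →
    ∃ r p q k : ℕ, r.Prime ∧ p.Prime ∧ q.Prime ∧ 1 ≤ k ∧ n = k * p + r ∧ q ∣ r - 1 ∧
      n / 2 < r ∧ 5 * r ≤ 4 * n ∧ (n : ℝ) ^ (1 / 2 + η) < p ∧ (n : ℝ) ^ (1 / 2 + η) < q ∧
      (Nat.gcd k (p - 1) : ℝ) ≤ (n : ℝ) ^ (η / 2) := by
  classical
  obtain ⟨C, hC1, hsieve⟩ := sieve_mass
  have hC0 : 0 < C := by linarith
  set τ : ℝ := 1 / (400 * C) with hτ
  have hτ0 : 0 < τ := by positivity
  have hτC : C * τ = 1 / 400 := by rw [hτ]; field_simp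
  have hτ1 : τ ≤ 1 / 400 := by
    rw [← hτC]; nlinarith
  obtain ⟨η, hη0, hη1, hL⟩ := large_mass (τ / 16) (by positivity)
  refine ⟨η, hη0, hη1, ?_⟩
  obtain ⟨n1, h1⟩ := MM_bounds
  obtain ⟨n2, h2⟩ := hL η hη0 le_rfl
  obtain ⟨n3, h3⟩ := hsieve τ hτ0 (by linarith)
  obtain ⟨n4, h4⟩ := bad_mass η hη0 (by linarith) (τ / 1000) (by positivity)
  refine ⟨max (max n1 n2) (max (max n3 n4) 20), fun n hn => ?_⟩
  have g1 : n1 ≤ n := le_trans (le_trans (le_max_left _ _) (le_max_left _ _)) hn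
  have g2 : n2 ≤ n := le_trans (le_trans (le_max_right _ _) (le_max_left _ _)) hn
  have g3 : n3 ≤ n :=
    le_trans (le_trans (le_trans (le_max_left _ _) (le_max_left _ _)) (le_max_right _ _)) hn
  have g4 : n4 ≤ n :=
    le_trans (le_trans (le_trans (le_max_right _ _) (le_max_left _ _)) (le_max_right _ _)) hn
  have g5 : 20 ≤ n := le_trans (le_trans (le_max_right _ _) (le_max_right _ _)) hn
  obtain ⟨hM1, _⟩ := h1 n g1
  have hA := h2 n g2 _ 1 (shift_one n g5)
  have hB := h2 n g2 _ n (shift_sub n g5)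
  have hT := h3 n g3
  have hbad := h4 n g4
  have hn20 : (20 : ℝ) ≤ n := by exact_mod_cast g5
  have hn0 : (0 : ℝ) < n := by linarith
  have hlog : 0 < Real.log n := Real.log_pos (by linarith)
  have hMM : 0 < MM n := lt_of_lt_of_le (by positivity) hM1
  have hn40 : (n : ℝ) ≤ 40 * MM n := by linarith
  set y : ℝ := (n : ℝ) ^ (1 / 2 + η) with hy
  set S1 : ℕ → Prop := fun m => ∃ q : ℕ, q.Prime ∧ y < q ∧ q ∣ m - 1 with hS1
  set S2 : ℕ → Prop := fun m => ∃ p : ℕ, p.Prime ∧ y < p ∧ p ∣ n - m with hS2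
  set T : ℕ → Prop := fun m => ∃ q : ℕ, q.Prime ∧ (n : ℝ) ^ (1 - τ) < q ∧ q ∣ m - 1 with hTdef
  set Bd : ℕ → Prop := fun m => ∃ k p : ℕ, p.Prime ∧ n - m = k * p ∧ 1 ≤ k ∧ y < p ∧
        (n : ℝ) ^ (η / 2) < (Nat.gcd k (p - 1) : ℝ) with hBd
  have hyτ : y ≤ (n : ℝ) ^ (1 - τ) :=
    Real.rpow_le_rpow_of_exponent_le (by linarith) (by linarith)
  have hTS : ∀ m, T m → S1 m := by
    rintro m ⟨q, hq, hq2, hq3⟩
    exact ⟨q, hq, lt_of_le_of_lt hyτ hq2, hq3⟩
  -- second shift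
  have e2 : (1 / 2 - τ / 16) * MM n ≤ WP n S2 := by
    have h5 : ∑ m ∈ Icc 1 n, wt n m * ∑ l ∈ pw (n - m) y n, Real.log l ≤
        WP n S2 * Real.log n := by
      rw [WP_eq, sum_mul]
      apply sum_le_sum
      intro m hm
      rw [mem_Icc] at hm
      rcases eq_or_ne (wt n m) 0 with h0 | h0
      · rw [h0]; simp
      · obtain ⟨_, h6, h7⟩ := wt_supp n m h0
        have hge := (shift_sub n g5).ge m h6 h7
        by_cases hs : S2 m
        · rw [if_pos hs]
          apply mul_le_mul_of_nonneg_left _ (wt_nonneg n m)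
          apply pw_log_le n (n - m) η hη0 (by omega) (by omega) (by omega) _ hlog.le
          intro l hl hl2 _
          apply Real.log_le_log (by exact_mod_cast hl.pos)
          have := Nat.le_of_dvd (by omega) hl2
          exact_mod_cast this.trans (by omega)
        · rw [if_neg hs, zero_mul]
          have : ∑ l ∈ pw (n - m) y n, Real.log l ≤ 0 := by
            apply pw_log_le n (n - m) η hη0 (by omega) (by omega) (by omega) _ le_rfl
            intro l hl hl2 hl3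
            exact absurd ⟨l, hl, hl3, hl2⟩ hs
          exact mul_nonpos_of_nonneg_of_nonpos (wt_nonneg n m) this
    have h6 : ((1 / 2 - τ / 16) * MM n) * Real.log n ≤ WP n S2 * Real.log n := hB.trans h5
    exact le_of_mul_le_mul_right h6 hlog
  -- first shift
  have e1 : (1 / 2 - τ / 16) * MM n ≤ (1 - τ) * WP n (fun m => S1 m ∧ ¬ T m) + WP n T := by
    have h5 : ∑ m ∈ Icc 1 n, wt n m * ∑ l ∈ pw (m - 1) y n, Real.log l ≤
        ((1 - τ) * WP n (fun m => S1 m ∧ ¬ T m) + WP n T) * Real.log n := by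
      rw [WP_eq, WP_eq, mul_sum, ← sum_add_distrib, sum_mul]
      apply sum_le_sum
      intro m hm
      rw [mem_Icc] at hm
      rcases eq_or_ne (wt n m) 0 with h0 | h0
      · rw [h0]; simp
      · obtain ⟨_, h6, h7⟩ := wt_supp n m h0
        have hge := (shift_one n g5).ge m h6 h7
        have hm1 : 1 ≤ m - 1 := by omega
        by_cases ht : T m
        · rw [if_neg (fun h => h.2 ht), if_pos ht]
          rw [mul_zero, zero_add]
          apply mul_le_mul_of_nonneg_left _ (wt_nonneg n m)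
          apply pw_log_le n (m - 1) η hη0 (by omega) hm1 (by omega) _ hlog.le
          intro l hl hl2 _
          apply Real.log_le_log (by exact_mod_cast hl.pos)
          have := Nat.le_of_dvd (by omega) hl2
          exact_mod_cast this.trans (by omega)
        · rw [if_neg ht, add_zero]
          by_cases hs : S1 m
          · rw [if_pos ⟨hs, ht⟩]
            have h8 : ∑ l ∈ pw (m - 1) y n, Real.log l ≤ (1 - τ) * Real.log n := by
              apply pw_log_le n (m - 1) η hη0 (by omega) hm1 (by omega) _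
                (mul_nonneg (by linarith) hlog.le)
              intro l hl hl2 _
              have hlt : (l : ℝ) ≤ (n : ℝ) ^ (1 - τ) := by
                by_contra hcon
                exact ht ⟨l, hl, not_le.1 hcon, hl2⟩
              have := Real.log_le_log (by exact_mod_cast hl.pos) hlt
              rwa [Real.log_rpow hn0] at this
            calc wt n m * ∑ l ∈ pw (m - 1) y n, Real.log l ≤ wt n m * ((1 - τ) * Real.log n) :=
                  mul_le_mul_of_nonneg_left h8 (wt_nonneg n m)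
              _ = _ := by ring
          · rw [if_neg (fun h => hs h.1), mul_zero, zero_mul]
            have : ∑ l ∈ pw (m - 1) y n, Real.log l ≤ 0 := by
              apply pw_log_le n (m - 1) η hη0 (by omega) hm1 (by omega) _ le_rfl
              intro l hl hl2 hl3
              exact absurd ⟨l, hl, hl3, hl2⟩ hs
            exact mul_nonpos_of_nonneg_of_nonpos (wt_nonneg n m) this
    have h6 : ((1 / 2 - τ / 16) * MM n) * Real.log n ≤
        ((1 - τ) * WP n (fun m => S1 m ∧ ¬ T m) + WP n T) * Real.log n := hA.trans h5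
    exact le_of_mul_le_mul_right h6 hlog
  -- decomposition of S1
  have e3 : WP n S1 = WP n (fun m => S1 m ∧ ¬ T m) + WP n T := by
    rw [WP_eq, WP_eq, WP_eq, ← sum_add_distrib]
    apply sum_congr rfl
    intro m _
    by_cases ht : T m
    · rw [if_pos (hTS m ht), if_neg (fun h => h.2 ht), if_pos ht, zero_add]
    · by_cases hs : S1 m
      · rw [if_pos hs, if_pos ⟨hs, ht⟩, if_neg ht, add_zero]
      · rw [if_neg hs, if_neg (fun h => hs h.1), if_neg ht, add_zero]
  -- inclusion-exclusion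
  have e4 : WP n S1 + WP n S2 ≤ MM n + WP n (fun m => S1 m ∧ S2 m) := by
    rw [WP_eq, WP_eq, WP_eq]
    unfold MM
    rw [← sum_add_distrib, ← sum_add_distrib]
    apply sum_le_sum
    intro m _
    have := wt_nonneg n m
    by_cases a : S1 m <;> by_cases b : S2 m <;> simp [a, b] <;> linarith
  have e5 : WP n (fun m => S1 m ∧ S2 m) ≤ WP n (fun m => (S1 m ∧ S2 m) ∧ ¬ Bd m) + WP n Bd := by
    rw [WP_eq, WP_eq, WP_eq, ← sum_add_distrib]
    apply sum_le_sum
    intro m _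
    have := wt_nonneg n m
    by_cases a : (S1 m ∧ S2 m) <;> by_cases b : Bd m <;> simp [a, b] <;> linarith
  have hTle : WP n T ≤ MM n / 10 := by
    calc WP n T ≤ C * τ * n := hT
      _ = n / 400 := by rw [hτC]; ring
      _ ≤ MM n / 10 := by linarith
  have hbadle : WP n Bd ≤ τ / 25 * MM n := by
    calc WP n Bd ≤ τ / 1000 * n := hbad
      _ ≤ τ / 1000 * (40 * MM n) := mul_le_mul_of_nonneg_left hn40 (by positivity)
      _ = _ := by ring
  have hpos : 0 < WP n (fun m => (S1 m ∧ S2 m) ∧ ¬ Bd m) := by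
    set A' := WP n (fun m => S1 m ∧ ¬ T m)
    have hA'0 : 0 ≤ A' := by
      simp only [A']
      rw [WP_eq]
      apply sum_nonneg
      intro m _
      split_ifs
      · exact wt_nonneg n m
      · exact le_rfl
    have hA' : MM n / 4 ≤ A' := by
      have : (1 - τ) * A' ≤ A' := by nlinarith
      nlinarith
    have h5 : τ * (MM n / 4) ≤ τ * A' := mul_le_mul_of_nonneg_left hA' hτ0.le
    have hτM : 0 < τ * MM n := mul_pos hτ0 hMM
    nlinarith
  rw [WP_eq] at hpos
  obtain ⟨m, hm, hm2⟩ := exists_ne_zero_of_sum_ne_zero hpos.ne'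
  have hP : (S1 m ∧ S2 m) ∧ ¬ Bd m := by
    by_contra hcon
    rw [if_neg hcon] at hm2
    exact hm2 rfl
  rw [if_pos hP] at hm2
  obtain ⟨⟨⟨q, hq, hqy, hqd⟩, ⟨p, hp, hpy, ⟨k, hk⟩⟩⟩, hnb⟩ := hP
  obtain ⟨hmp, hm3, hm4⟩ := wt_supp n m hm2
  have hk1 : 1 ≤ k := by
    rcases Nat.eq_zero_or_pos k with h0 | h0
    · subst h0; rw [mul_zero] at hk; omega
    · exact h0
  refine ⟨m, p, q, k, hmp, hp, hq, hk1, ?_, hqd, hm3, hm4, hpy, hqy, ?_⟩
  · have : n - m = k * p := by rw [hk, mul_comm]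
    omega
  · by_contra hcon
    exact hnb ⟨k, p, hp, by rw [hk, mul_comm], hk1, hpy, not_le.1 hcon⟩

end Pool.Agent.H98R2.Nt
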